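import Mathlib

/-! From the Poisson integrals of a measure to the measure of the intervals. -/

set_option autoImplicit false
set_option linter.unusedVariables false

open scoped BigOperators Topology ENNReal
open MeasureTheory Filter Set

namespace Pool.Agent.H189.W

theorem atan_tail (t : ℝ) (ht : 0 < t) :
    0 ≤ Real.pi / 2 - Real.arctan t ∧ Real.pi / 2 - Real.arctan t ≤ 1 / t := by
  refine ⟨by linarith [Real.arctan_lt_pi_div_two t], ?_⟩
  rw [← Real.arctan_inv_of_pos ht, one_div]
  have h0 : 0 < t⁻¹ := inv_pos.2 ht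
  have h1 : 0 ≤ Real.arctan t⁻¹ := Real.arctan_nonneg.2 h0.le
  have h2 := Real.le_tan h1 (Real.arctan_lt_pi_div_two _)
  rwa [Real.tan_arctan] at h2

/-- the error profile near an end point -/
noncomputable def bfun (η x : ℝ) : ℝ := if |x| < η then 4 else η / |x|

theorem bfun_nonneg (η x : ℝ) (hη : 0 < η) : 0 ≤ bfun η x := by
  unfold bfun
  split_ifs <;> positivity

theorem step_err (α β η E : ℝ) (hη : 0 < η) (hαβ : α ≤ β) :
    |Real.arctan ((β - E) / η) - Real.arctan ((α - E) / η) -
      (if α ≤ E ∧ E ≤ β then Real.pi else 0)| ≤ bfun η (E - α) + bfun η (E - β) := by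
  have hpi := Real.pi_pos
  have hpi4 := Real.pi_lt_four
  have b1 := bfun_nonneg η (E - α) hη
  have b2 := bfun_nonneg η (E - β) hη
  have hmono : Real.arctan ((α - E) / η) ≤ Real.arctan ((β - E) / η) := by
    refine Real.arctan_mono ?_
    gcongr
  have l1 := Real.arctan_lt_pi_div_two ((β - E) / η)
  have l2 := Real.neg_pi_div_two_lt_arctan ((α - E) / η)
  have hgen : |Real.arctan ((β - E) / η) - Real.arctan ((α - E) / η) -
      (if α ≤ E ∧ E ≤ β then Real.pi else 0)| ≤ 4 := by
    rw [abs_le]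
    split_ifs <;> constructor <;> linarith
  by_cases h1 : |E - α| < η
  · have : bfun η (E - α) = 4 := by unfold bfun; rw [if_pos h1]
    linarith
  by_cases h2 : |E - β| < η
  · have : bfun η (E - β) = 4 := by unfold bfun; rw [if_pos h2]
    linarith
  have e1 : bfun η (E - α) = η / |E - α| := by unfold bfun; rw [if_neg h1]
  have e2 : bfun η (E - β) = η / |E - β| := by unfold bfun; rw [if_neg h2]
  rw [not_lt] at h1 h2
  rcases lt_or_ge E α with hE | hE
  · rw [if_neg (by rintro ⟨h, -⟩; linarith), sub_zero, abs_of_nonneg (by linarith)]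
    have h3 := (atan_tail ((α - E) / η) (by
      have : 0 < α - E := by linarith
      positivity)).2
    rw [one_div_div] at h3
    have h4 : |E - α| = α - E := by rw [abs_of_neg (by linarith)]; ring
    rw [e1, h4]
    linarith
  rcases lt_or_ge β E with hE' | hE'
  · rw [if_neg (by rintro ⟨-, h⟩; linarith), sub_zero, abs_of_nonneg (by linarith)]
    have h3 := (atan_tail ((E - β) / η) (by
      have : 0 < E - β := by linarith
      positivity)).2
    rw [one_div_div] at h3
    have h4 : |E - β| = E - β := abs_of_pos (by linarith)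
    have h5 : Real.arctan ((β - E) / η) = -Real.arctan ((E - β) / η) := by
      rw [← Real.arctan_neg]
      congr 1
      ring
    rw [e2, h4]
    rw [h5] at hmono ⊢
    linarith
  · rw [if_pos ⟨hE, hE'⟩]
    have h3 : α < E := by
      rcases hE.eq_or_lt with h | h
      · exfalso
        rw [h, sub_self, abs_zero] at h1
        linarith
      · exact h
    have h4 : E < β := by
      rcases hE'.eq_or_lt with h | h
      · exfalso
        rw [h, sub_self, abs_zero] at h2
        linarith
      · exact h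
    have h5 := (atan_tail ((β - E) / η) (by
      have : 0 < β - E := by linarith
      positivity)).2
    have h6 := (atan_tail ((E - α) / η) (by
      have : 0 < E - α := by linarith
      positivity)).2
    rw [one_div_div] at h5 h6
    have h7 : |E - α| = E - α := abs_of_pos (by linarith)
    have h8 : |E - β| = β - E := by rw [abs_of_neg (by linarith)]; ring
    have h9 : Real.arctan ((α - E) / η) = -Real.arctan ((E - α) / η) := by
      rw [← Real.arctan_neg]
      congr 1
      ring
    rw [e1, e2, h7, h8, abs_of_nonpos (by linarith)]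
    rw [h9]
    linarith

theorem bfun_maj (η : ℝ) (hη : 0 < η) (K0 : ℕ) (hK : 1 ≤ K0) (x : ℝ) :
    bfun η x ≤ (∑ k ∈ Finset.Icc (-(K0 : ℤ)) K0, 8 / (|(k : ℝ)| + 1) *
      (η ^ 2 / ((x - 2 * k * η) ^ 2 + η ^ 2))) + 1 / (2 * K0) := by
  have hK1 : (1 : ℝ) ≤ K0 := by exact_mod_cast hK
  have hterm : ∀ k : ℤ, 0 ≤ 8 / (|(k : ℝ)| + 1) * (η ^ 2 / ((x - 2 * k * η) ^ 2 + η ^ 2)) :=
    fun k => by positivity
  by_cases hx : |x| < 2 * K0 * η
  · obtain ⟨k, hk⟩ : ∃ k : ℤ, k = ⌊x / (2 * η) + 1 / 2⌋ := ⟨_, rfl⟩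
    have f1 : (k : ℝ) ≤ x / (2 * η) + 1 / 2 := by rw [hk]; exact Int.floor_le _
    have f2 : x / (2 * η) + 1 / 2 < k + 1 := by rw [hk]; exact Int.lt_floor_add_one _
    have f3 : |x - 2 * k * η| ≤ η := by
      have e1 : x = x / (2 * η) * (2 * η) := by field_simp
      rw [abs_le]
      constructor
      · nlinarith
      · nlinarith
    have hx2 := abs_lt.1 hx
    have hxk : |x / (2 * η)| < K0 := by
      rw [abs_div, abs_of_pos (by positivity : 0 < 2 * η), div_lt_iff₀ (by positivity)]
      linarith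
    have hkm : k ∈ Finset.Icc (-(K0 : ℤ)) K0 := by
      rw [Finset.mem_Icc]
      have h3 := abs_lt.1 hxk
      constructor
      · have : (-(K0 : ℝ)) < k + 1 := by linarith
        have h4 : (-(K0 : ℤ)) < k + 1 := by exact_mod_cast this
        omega
      · have : (k : ℝ) < K0 + 1 := by linarith
        have h4 : k < (K0 : ℤ) + 1 := by exact_mod_cast this
        omega
    have h4 := Finset.single_le_sum (f := fun k : ℤ => 8 / (|(k : ℝ)| + 1) *
      (η ^ 2 / ((x - 2 * k * η) ^ 2 + η ^ 2))) (fun k _ => hterm k) hkm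
    have h5 : 0 < 1 / (2 * (K0 : ℝ)) := by positivity
    have h6 : 1 / 2 ≤ η ^ 2 / ((x - 2 * k * η) ^ 2 + η ^ 2) := by
      rw [div_le_div_iff₀ (by norm_num) (by positivity)]
      have : (x - 2 * k * η) ^ 2 ≤ η ^ 2 := by
        rw [← sq_abs]
        gcongr
      linarith
    have h7 : 4 / (|(k : ℝ)| + 1) ≤ 8 / (|(k : ℝ)| + 1) *
        (η ^ 2 / ((x - 2 * k * η) ^ 2 + η ^ 2)) := by
      have h8 : (0 : ℝ) ≤ 8 / (|(k : ℝ)| + 1) := by positivity
      have h9 := mul_le_mul_of_nonneg_left h6 h8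
      have h10 : 8 / (|(k : ℝ)| + 1) * (1 / 2) = 4 / (|(k : ℝ)| + 1) := by ring
      linarith
    have h8 : bfun η x ≤ 4 / (|(k : ℝ)| + 1) := by
      unfold bfun
      split_ifs with hxη
      · -- `k = 0`
        have hk0 : k = 0 := by
          have h9 := abs_lt.1 hxη
          have h10 : |x / (2 * η)| < 1 / 2 := by
            rw [abs_div, abs_of_pos (by positivity : 0 < 2 * η), div_lt_iff₀ (by positivity)]
            linarith
          have h11 := abs_lt.1 h10
          have h12 : (k : ℝ) < 1 := by linarith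
          have h13 : (0 : ℝ) < k + 1 := by linarith
          have h14 : k < 1 := by exact_mod_cast h12
          have h15 : 0 < k + 1 := by exact_mod_cast h13
          omega
        rw [hk0]
        norm_num
      · rw [not_lt] at hxη
        have hx0 : 0 < |x| := lt_of_lt_of_le hη hxη
        rw [div_le_div_iff₀ hx0 (by positivity)]
        have h9 : 2 * |(k : ℝ)| * η ≤ |x| + η := by
          have h10 : |2 * (k : ℝ) * η| ≤ |x| + |x - 2 * k * η| := by
            have := abs_sub x (x - 2 * k * η)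
            rwa [sub_sub_cancel] at this
          rw [abs_mul, abs_mul, abs_of_pos hη, abs_of_pos (by norm_num : (0 : ℝ) < 2)] at h10
          linarith
        linarith
    linarith
  · rw [not_lt] at hx
    have h1 : 0 ≤ ∑ k ∈ Finset.Icc (-(K0 : ℤ)) K0, 8 / (|(k : ℝ)| + 1) *
      (η ^ 2 / ((x - 2 * k * η) ^ 2 + η ^ 2)) := Finset.sum_nonneg fun k _ => hterm k
    have h2 : bfun η x ≤ 1 / (2 * K0) := by
      unfold bfun
      have h3 : η ≤ |x| := by nlinarith
      rw [if_neg (not_lt.2 h3)]
      rw [div_le_div_iff₀ (by linarith) (by positivity)]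
      linarith
    linarith

theorem csum (K0 : ℕ) : ∑ k ∈ Finset.Icc (-(K0 : ℤ)) K0, 8 / (|(k : ℝ)| + 1) ≤
    16 * (1 + Real.log (K0 + 1)) := by
  have h1 : ∑ k ∈ Finset.Icc (-(K0 : ℤ)) K0, 8 / (|(k : ℝ)| + 1) =
      ∑ j ∈ Finset.range (K0 + 1), ∑ k ∈ (Finset.Icc (-(K0 : ℤ)) K0).filter
        (fun k => k.natAbs = j), 8 / (|(k : ℝ)| + 1) := by
    rw [Finset.sum_fiberwise_of_maps_to]
    intro k hk
    rw [Finset.mem_Icc] at hk
    rw [Finset.mem_range]
    omega
  have h2 : ∀ j ∈ Finset.range (K0 + 1),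
      ∑ k ∈ (Finset.Icc (-(K0 : ℤ)) K0).filter (fun k => k.natAbs = j),
        8 / (|(k : ℝ)| + 1) ≤ 16 * ((j : ℝ) + 1)⁻¹ := by
    intro j _
    have h3 : ∀ k ∈ (Finset.Icc (-(K0 : ℤ)) K0).filter (fun k => k.natAbs = j),
        8 / (|(k : ℝ)| + 1) ≤ 8 * ((j : ℝ) + 1)⁻¹ := by
      intro k hk
      have h4 := (Finset.mem_filter.1 hk).2
      have h5 : |(k : ℝ)| = j := by
        rw [← h4, ← Int.cast_abs, Int.abs_eq_natAbs]
        simp
      rw [h5, div_eq_mul_inv]
    refine (Finset.sum_le_card_nsmul _ _ _ h3).trans ?_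
    rw [nsmul_eq_mul]
    have h6 : ((Finset.Icc (-(K0 : ℤ)) K0).filter (fun k => k.natAbs = j)).card ≤
        ({(j : ℤ), -(j : ℤ)} : Finset ℤ).card := by
      apply Finset.card_le_card
      intro k hk
      have h4 := (Finset.mem_filter.1 hk).2
      rw [Finset.mem_insert, Finset.mem_singleton]
      omega
    have h7 : ({(j : ℤ), -(j : ℤ)} : Finset ℤ).card ≤ 2 := Finset.card_le_two
    have h8 : ((((Finset.Icc (-(K0 : ℤ)) K0).filter (fun k => k.natAbs = j)).card : ℕ) : ℝ) ≤ 2 := by
      exact_mod_cast h6.trans h7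
    have h9 : (0 : ℝ) ≤ 8 * ((j : ℝ) + 1)⁻¹ := by positivity
    calc _ ≤ 2 * (8 * ((j : ℝ) + 1)⁻¹) := mul_le_mul_of_nonneg_right h8 h9
      _ = _ := by ring
  rw [h1]
  refine (Finset.sum_le_sum h2).trans ?_
  rw [← Finset.mul_sum]
  refine mul_le_mul_of_nonneg_left ?_ (by norm_num)
  have h3 := harmonic_le_one_add_log (K0 + 1)
  unfold harmonic at h3
  push_cast at h3
  exact h3

/-- the Poisson integral -/
noncomputable def pint (m : Measure ℝ) (η e : ℝ) : ℝ := ∫ E, η / ((E - e) ^ 2 + η ^ 2) ∂m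

theorem lor_cont (η e : ℝ) (hη : 0 < η) : Continuous fun E : ℝ => η / ((E - e) ^ 2 + η ^ 2) := by
  refine Continuous.div (by fun_prop) (by fun_prop) fun x => ?_
  positivity

theorem lor_bd (η e E : ℝ) (hη : 0 < η) : 0 ≤ η / ((E - e) ^ 2 + η ^ 2) ∧
    η / ((E - e) ^ 2 + η ^ 2) ≤ η⁻¹ := by
  refine ⟨by positivity, ?_⟩
  rw [div_le_iff₀ (by positivity)]
  have : η⁻¹ * ((E - e) ^ 2 + η ^ 2) = η⁻¹ * (E - e) ^ 2 + η := by
    field_simp
  rw [this]
  have : 0 ≤ η⁻¹ * (E - e) ^ 2 := by positivity
  linarith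

theorem lor_intg (m : Measure ℝ) [IsFiniteMeasure m] (η e : ℝ) (hη : 0 < η) :
    Integrable (fun E : ℝ => η / ((E - e) ^ 2 + η ^ 2)) m := by
  refine Integrable.of_bound (C := η⁻¹) (lor_cont η e hη).aestronglyMeasurable
    (Eventually.of_forall fun E => ?_)
  rw [Real.norm_of_nonneg (lor_bd η e E hη).1]
  exact (lor_bd η e E hη).2

/-- the mass near an end point -/
theorem bfun_int (m : Measure ℝ) [IsFiniteMeasure m] (hm1 : m.real univ ≤ 1) (η C α : ℝ)
    (hη : 0 < η) (K0 : ℕ) (hK : 1 ≤ K0)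
    (hP : ∀ k : ℤ, |k| ≤ K0 → pint m η (α + 2 * k * η) ≤ C) :
    ∫ E, bfun η (E - α) ∂m ≤ 16 * (1 + Real.log (K0 + 1)) * (η * C) + 1 / (2 * K0) := by
  have hK1 : (1 : ℝ) ≤ K0 := by exact_mod_cast hK
  have hC : 0 ≤ C := by
    have h1 := hP 0 (by simp)
    refine le_trans ?_ h1
    exact integral_nonneg fun E => (lor_bd η _ E hη).1
  have hbm : Measurable fun E => bfun η (E - α) := by
    unfold bfun
    refine Measurable.ite ?_ measurable_const ?_
    · exact measurableSet_lt (by fun_prop) measurable_const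
    · fun_prop
  have hb4 : ∀ E, bfun η (E - α) ≤ 4 := by
    intro E
    unfold bfun
    split_ifs with h
    · exact le_rfl
    · rw [not_lt] at h
      have : η / |E - α| ≤ 1 := div_le_one_of_le₀ h (abs_nonneg _)
      linarith
  have hbi : Integrable (fun E => bfun η (E - α)) m := by
    refine Integrable.of_bound (C := 4) hbm.aestronglyMeasurable (Eventually.of_forall fun E => ?_)
    rw [Real.norm_of_nonneg (bfun_nonneg _ _ hη)]
    exact hb4 E
  have hti : ∀ k ∈ Finset.Icc (-(K0 : ℤ)) K0, Integrable (fun E => 8 / (|(k : ℝ)| + 1) *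
      (η * (η / ((E - (α + 2 * k * η)) ^ 2 + η ^ 2)))) m := fun k _ =>
    ((lor_intg m η _ hη).const_mul η).const_mul _
  have hmaj : ∀ E, bfun η (E - α) ≤ (∑ k ∈ Finset.Icc (-(K0 : ℤ)) K0, 8 / (|(k : ℝ)| + 1) *
      (η * (η / ((E - (α + 2 * k * η)) ^ 2 + η ^ 2)))) + 1 / (2 * K0) := by
    intro E
    refine (bfun_maj η hη K0 hK (E - α)).trans (le_of_eq ?_)
    congr 1
    refine Finset.sum_congr rfl fun k _ => ?_
    have : E - α - 2 * k * η = E - (α + 2 * k * η) := by ring
    rw [this]
    ring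
  have h1 := integral_mono hbi ((integrable_finsetSum _ hti).add (integrable_const _)) hmaj
  refine h1.trans ?_
  have h2 : ∫ E, ((∑ k ∈ Finset.Icc (-(K0 : ℤ)) K0, 8 / (|(k : ℝ)| + 1) *
      (η * (η / ((E - (α + 2 * k * η)) ^ 2 + η ^ 2)))) + 1 / (2 * (K0 : ℝ))) ∂m =
      (∑ k ∈ Finset.Icc (-(K0 : ℤ)) K0, 8 / (|(k : ℝ)| + 1) * (η * pint m η (α + 2 * k * η))) +
        m.real univ * (1 / (2 * K0)) := by
    rw [integral_add (integrable_finsetSum _ hti) (integrable_const _), integral_finsetSum _ hti,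
      integral_const, smul_eq_mul]
    congr 1
    refine Finset.sum_congr rfl fun k _ => ?_
    rw [integral_const_mul, integral_const_mul]
    rfl
  refine (le_of_eq h2).trans (add_le_add ?_ ?_)
  · calc ∑ k ∈ Finset.Icc (-(K0 : ℤ)) K0, 8 / (|(k : ℝ)| + 1) *
        (η * pint m η (α + 2 * k * η)) ≤
        ∑ k ∈ Finset.Icc (-(K0 : ℤ)) K0, 8 / (|(k : ℝ)| + 1) * (η * C) := by
          refine Finset.sum_le_sum fun k hk => ?_
          rw [Finset.mem_Icc] at hk
          have := hP k (abs_le.2 hk)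
          gcongr
      _ = (∑ k ∈ Finset.Icc (-(K0 : ℤ)) K0, 8 / (|(k : ℝ)| + 1)) * (η * C) := by
          rw [Finset.sum_mul]
      _ ≤ _ := mul_le_mul_of_nonneg_right (csum K0) (by positivity)
  · have : (0 : ℝ) ≤ 1 / (2 * K0) := by positivity
    nlinarith

/-- **the measure of an interval** -/
theorem ldos_det (m : Measure ℝ) [IsFiniteMeasure m] (hm1 : m.real univ ≤ 1)
    (η ε C0 α β κ' : ℝ) (ρ : ℝ → ℝ) (hρ : Continuous ρ) (hη : 0 < η) (hε : 0 ≤ ε)
    (hαβ : α ≤ β) (hρC : ∀ e, ρ e ≤ C0) (K0 : ℕ) (hK : 1 ≤ K0)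
    (hKκ : 2 * K0 * η ≤ κ')
    (hP : ∀ e, α - κ' ≤ e → e ≤ β + κ' → |pint m η e - ρ e| ≤ ε) :
    |Real.pi * m.real (Icc α β) - ∫ e in α..β, ρ e| ≤
      ε * (β - α) + 2 * (16 * (1 + Real.log (K0 + 1)) * (η * (C0 + ε)) + 1 / (2 * K0)) := by
  have hK1 : (1 : ℝ) ≤ K0 := by exact_mod_cast hK
  have hκ0 : 0 ≤ κ' := le_trans (by positivity) hKκ
  -- Fubini
  have hint : Integrable (Function.uncurry fun (e E : ℝ) => η / ((E - e) ^ 2 + η ^ 2))
      (((volume : Measure ℝ).restrict (Ioc α β)).prod m) := by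
    refine Integrable.of_bound (C := η⁻¹) ?_ (Eventually.of_forall fun p => ?_)
    · have : Continuous (Function.uncurry fun (e E : ℝ) => η / ((E - e) ^ 2 + η ^ 2)) := by
        unfold Function.uncurry
        refine Continuous.div (by fun_prop) (by fun_prop) fun x => ?_
        positivity
      exact this.aestronglyMeasurable
    · unfold Function.uncurry
      rw [Real.norm_of_nonneg (lor_bd η _ _ hη).1]
      exact (lor_bd η _ _ hη).2
  have hA : ∀ E : ℝ, ∫ e in Ioc α β, η / ((E - e) ^ 2 + η ^ 2) =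
      Real.arctan ((β - E) / η) - Real.arctan ((α - E) / η) := by
    intro E
    rw [← intervalIntegral.integral_of_le hαβ]
    have h1 : ∀ e : ℝ, η / ((E - e) ^ 2 + η ^ 2) = η * (η ^ 2 + (e - E) ^ 2)⁻¹ := by
      intro e
      rw [div_eq_mul_inv]
      congr 2
      ring
    simp only [h1]
    rw [intervalIntegral.integral_const_mul,
      intervalIntegral.integral_comp_sub_right (fun x => (η ^ 2 + x ^ 2)⁻¹) E,
      integral_inv_sq_add_sq hη.ne', ← mul_assoc, mul_inv_cancel₀ hη.ne', one_mul]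
  have hF : ∫ e in α..β, pint m η e =
      ∫ E, (Real.arctan ((β - E) / η) - Real.arctan ((α - E) / η)) ∂m := by
    rw [intervalIntegral.integral_of_le hαβ]
    unfold pint
    rw [integral_integral_swap hint]
    exact integral_congr_ae (Eventually.of_forall fun E => hA E)
  have hPi : IntervalIntegrable (pint m η) volume α β := by
    rw [intervalIntegrable_iff_integrableOn_Ioc_of_le hαβ]
    exact hint.integral_prod_left
  -- the local law
  have h1 : |(∫ e in α..β, pint m η e) - ∫ e in α..β, ρ e| ≤ ε * (β - α) := by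
    rw [← intervalIntegral.integral_sub hPi (hρ.intervalIntegrable _ _), ← Real.norm_eq_abs]
    have h2 := intervalIntegral.norm_integral_le_of_norm_le_const (a := α) (b := β) (C := ε)
      (f := fun e => pint m η e - ρ e) (fun e he => by
        rw [uIoc_of_le hαβ] at he
        rw [Real.norm_eq_abs]
        exact hP e (by linarith [he.1]) (by linarith [he.2]))
    rwa [abs_of_nonneg (by linarith)] at h2
  -- the end points
  have hbm : ∀ γ : ℝ, Integrable (fun E => bfun η (E - γ)) m := by
    intro γ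
    have hbm : Measurable fun E => bfun η (E - γ) := by
      unfold bfun
      refine Measurable.ite ?_ measurable_const ?_
      · exact measurableSet_lt (by fun_prop) measurable_const
      · fun_prop
    refine Integrable.of_bound (C := 4) hbm.aestronglyMeasurable (Eventually.of_forall fun E => ?_)
    rw [Real.norm_of_nonneg (bfun_nonneg _ _ hη)]
    unfold bfun
    split_ifs with h
    · exact le_rfl
    · rw [not_lt] at h
      have : η / |E - γ| ≤ 1 := div_le_one_of_le₀ h (abs_nonneg _)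
      linarith
  have hAi : Integrable (fun E => Real.arctan ((β - E) / η) - Real.arctan ((α - E) / η)) m := by
    have hc : Continuous fun E => Real.arctan ((β - E) / η) - Real.arctan ((α - E) / η) := by
      have := Real.continuous_arctan
      fun_prop
    refine Integrable.of_bound (C := Real.pi) hc.aestronglyMeasurable
      (Eventually.of_forall fun E => ?_)
    rw [Real.norm_eq_abs, abs_le]
    have l1 := Real.arctan_lt_pi_div_two ((β - E) / η)
    have l2 := Real.neg_pi_div_two_lt_arctan ((α - E) / η)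
    have l3 := Real.arctan_lt_pi_div_two ((α - E) / η)
    have l4 := Real.neg_pi_div_two_lt_arctan ((β - E) / η)
    constructor <;> linarith
  have hind : ∫ E, (if α ≤ E ∧ E ≤ β then Real.pi else 0) ∂m = Real.pi * m.real (Icc α β) := by
    have e1 : (fun E : ℝ => (if α ≤ E ∧ E ≤ β then Real.pi else 0)) =
        (Icc α β).indicator fun _ => Real.pi := by
      funext E
      by_cases h : E ∈ Icc α β
      · rw [indicator_of_mem h]
        exact if_pos h
      · rw [indicator_of_notMem h]
        exact if_neg h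
    rw [e1, integral_indicator measurableSet_Icc, setIntegral_const, smul_eq_mul, mul_comm]
  have hindi : Integrable (fun E : ℝ => (if α ≤ E ∧ E ≤ β then Real.pi else 0)) m := by
    have e1 : (fun E : ℝ => (if α ≤ E ∧ E ≤ β then Real.pi else 0)) =
        (Icc α β).indicator fun _ => Real.pi := by
      funext E
      by_cases h : E ∈ Icc α β
      · rw [indicator_of_mem h]
        exact if_pos h
      · rw [indicator_of_notMem h]
        exact if_neg h
    rw [e1]
    exact (integrable_const _).indicator measurableSet_Icc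
  have h2 : |(∫ E, (Real.arctan ((β - E) / η) - Real.arctan ((α - E) / η)) ∂m) -
      Real.pi * m.real (Icc α β)| ≤
      (∫ E, bfun η (E - α) ∂m) + ∫ E, bfun η (E - β) ∂m := by
    rw [← hind, ← integral_sub hAi hindi, ← integral_add (hbm α) (hbm β), ← Real.norm_eq_abs]
    refine norm_integral_le_of_norm_le ((hbm α).add (hbm β)) (Eventually.of_forall fun E => ?_)
    rw [Real.norm_eq_abs]
    exact step_err α β η E hη hαβ
  have hend : ∀ γ : ℝ, α ≤ γ → γ ≤ β → ∫ E, bfun η (E - γ) ∂m ≤
      16 * (1 + Real.log (K0 + 1)) * (η * (C0 + ε)) + 1 / (2 * K0) := by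
    intro γ hγ1 hγ2
    refine bfun_int m hm1 η (C0 + ε) γ hη K0 hK fun k hk => ?_
    have hk' : |(k : ℝ)| ≤ K0 := by exact_mod_cast hk
    have h3 : |2 * (k : ℝ) * η| ≤ κ' := by
      rw [abs_mul, abs_mul, abs_of_pos hη, abs_of_pos (by norm_num : (0 : ℝ) < 2)]
      refine le_trans ?_ hKκ
      gcongr
    have h4 := abs_le.1 h3
    have h5 := (abs_le.1 (hP (γ + 2 * k * η) (by linarith [h4.1]) (by linarith [h4.2]))).2
    have h6 := hρC (γ + 2 * k * η)
    linarith
  have h3 := hend α le_rfl hαβ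
  have h4 := hend β hαβ le_rfl
  rw [hF] at h1
  have h5 := abs_sub_le (Real.pi * m.real (Icc α β))
    (∫ E, (Real.arctan ((β - E) / η) - Real.arctan ((α - E) / η)) ∂m) (∫ e in α..β, ρ e)
  have h6 := abs_sub_comm (Real.pi * m.real (Icc α β))
    (∫ E, (Real.arctan ((β - E) / η) - Real.arctan ((α - E) / η)) ∂m)
  rw [h6] at h5
  linarith

/-- the mass of a measure with a small Borel transform -/
theorem mass_le (m : Measure ℝ) [IsFiniteMeasure m] (h : ∀ η : ℝ, 0 < η → η * pint m η 0 ≤ 1) :
    m.real univ ≤ 1 := by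
  have h1 : Tendsto (fun n : ℕ => ∫ E, (n : ℝ) ^ 2 / ((E - 0) ^ 2 + (n : ℝ) ^ 2) ∂m) atTop
      (𝓝 (∫ _E, (1 : ℝ) ∂m)) := by
    refine tendsto_integral_of_dominated_convergence (fun _ => 1) (fun n => ?_)
      (integrable_const _) (fun n => Eventually.of_forall fun E => ?_)
      (Eventually.of_forall fun E => ?_)
    · exact (by fun_prop : Measurable fun E : ℝ =>
        (n : ℝ) ^ 2 / ((E - 0) ^ 2 + (n : ℝ) ^ 2)).aestronglyMeasurable
    · rw [Real.norm_of_nonneg (by positivity)]
      exact div_le_one_of_le₀ (by nlinarith [sq_nonneg (E - 0)]) (by positivity)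
    · have h2 : Tendsto (fun n : ℕ => 1 / ((E - 0) ^ 2 * ((n : ℝ) ^ 2)⁻¹ + 1)) atTop
          (𝓝 (1 / ((E - 0) ^ 2 * 0 + 1))) := by
        refine Tendsto.div tendsto_const_nhds (Tendsto.add_const _ (Tendsto.const_mul _ ?_))
          (by norm_num)
        have h3 : Tendsto (fun n : ℕ => (n : ℝ) ^ 2) atTop atTop :=
          (tendsto_pow_atTop two_ne_zero).comp tendsto_natCast_atTop_atTop
        exact tendsto_inv_atTop_zero.comp h3
      rw [mul_zero, zero_add, div_one] at h2
      refine h2.congr' ?_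
      filter_upwards [eventually_ge_atTop 1] with n hn
      have hn' : (0 : ℝ) < n := by exact_mod_cast hn
      field_simp
  rw [integral_const, smul_eq_mul, mul_one] at h1
  refine le_of_tendsto h1 ?_
  filter_upwards [eventually_ge_atTop 1] with n hn
  have hn' : (0 : ℝ) < n := by exact_mod_cast hn
  have h2 := h n hn'
  unfold pint at h2
  rw [← integral_const_mul] at h2
  refine le_trans (le_of_eq ?_) h2
  refine integral_congr_ae (Eventually.of_forall fun E => ?_)
  simp only
  ring

end Pool.Agent.H189.W
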