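import Pool.Agent.R988.Msd3

/-! Plancherel's identity with a bounded weight, and the free density of states. -/

set_option autoImplicit false
set_option linter.unusedVariables false
set_option linter.unusedSectionVars false

open scoped BigOperators Topology ENNReal
open MeasureTheory Filter Set

namespace Pool.Agent.H189.W

open Pool.Agent.H4R2.LO (Zd)
open Pool.Agent.TH794.QD
open Pool.Agent.TH794.QE
open Pool.Agent.R988

variable {d : ℕ}

/-- weighted sums are measurable -/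
theorem tsum_meas (X : Zd d → ℂ) (f : Zd d → ℝ → ℝ) (hf : ∀ x, Measurable (f x))
    (hs : ∀ t, Summable fun x => X x * ((f x t : ℝ) : ℂ)) :
    Measurable fun t => ∑' x, X x * ((f x t : ℝ) : ℂ) := by
  refine measurable_of_tendsto_metrizable' (atTop : Filter (Finset (Zd d)))
    (f := fun s t => ∑ x ∈ s, X x * ((f x t : ℝ) : ℂ)) (fun s => ?_) ?_
  · exact Finset.measurable_fun_sum _ fun x _ =>
      measurable_const.mul (Complex.measurable_ofReal.comp (hf x))
  · exact tendsto_pi_nhds.2 fun t => (hs t).hasSum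

theorem sum_ok (X : Zd d → ℂ) (hX : ∀ x, ‖X x‖ ≤ 1) (u : Zd d → ℂ)
    (hu : Summable fun x => ‖u x‖ ^ 2) : Summable fun x => X x * ((‖u x‖ ^ 2 : ℝ) : ℂ) := by
  refine Summable.of_norm_bounded hu fun x => ?_
  rw [norm_mul, Complex.norm_real, Real.norm_of_nonneg (sq_nonneg _)]
  exact mul_le_of_le_one_left (sq_nonneg _) (hX x)

theorem sum_le (X : Zd d → ℂ) (hX : ∀ x, ‖X x‖ ≤ 1) (u : Zd d → ℂ)
    (hu : Summable fun x => ‖u x‖ ^ 2) :
    ‖∑' x, X x * ((‖u x‖ ^ 2 : ℝ) : ℂ)‖ ≤ ∑' x, ‖u x‖ ^ 2 := by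
  refine tsum_of_norm_bounded hu.hasSum fun x => ?_
  rw [norm_mul, Complex.norm_real, Real.norm_of_nonneg (sq_nonneg _)]
  exact mul_le_of_le_one_left (sq_nonneg _) (hX x)

section

variable {V : Zd d → ℝ} {a : Zd d} {ψ : ℝ → Zd d → ℂ}

/-- the time integral at a site -/
noncomputable def J (ψ : ℝ → Zd d → ℂ) (η : ℝ) (x : Zd d) : ℝ :=
  ∫ s in Ioi (0 : ℝ), Real.exp (-(2 * η) * s) * ‖ψ s x‖ ^ 2

theorem J_int (h : Sol d V a ψ) (η : ℝ) (hη : 0 < η) (x : Zd d) :
    IntegrableOn (fun s => Real.exp (-(2 * η) * s) * ‖ψ s x‖ ^ 2) (Ioi (0 : ℝ)) := by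
  refine Integrable.mono' (exp_int (2 * η) (by positivity)) ?_ ?_
  · exact (Continuous.mul (by fun_prop) ((h.cont x).norm.pow 2)).aestronglyMeasurable
  · refine Eventually.of_forall fun s => ?_
    rw [Real.norm_of_nonneg (by positivity)]
    refine mul_le_of_le_one_right (Real.exp_pos _).le ?_
    exact pow_le_one₀ (norm_nonneg _) (h.le_one s x)

theorem J_nonneg (ψ : ℝ → Zd d → ℂ) (η : ℝ) (x : Zd d) : 0 ≤ J ψ η x :=
  integral_nonneg fun s => by positivity

theorem J_eq (h : Sol d V a ψ) (η : ℝ) (hη : 0 < η) (x : Zd d) :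
    ∫⁻ s in Ioi (0 : ℝ), ENNReal.ofReal (Real.exp (-(2 * η) * s) * ‖ψ s x‖ ^ 2) =
      ENNReal.ofReal (J ψ η x) :=
  (ofReal_integral_eq_lintegral_ofReal (J_int h η hη x)
    (Eventually.of_forall fun s => by positivity)).symm

theorem J_tsum (h : Sol d V a ψ) (η : ℝ) (hη : 0 < η) :
    ∑' x, ENNReal.ofReal (J ψ η x) = ENNReal.ofReal (2 * η)⁻¹ := by
  have h1 : ∀ x, ENNReal.ofReal (J ψ η x) =
      ∫⁻ s in Ioi (0 : ℝ), ENNReal.ofReal (Real.exp (-(2 * η) * s) * ‖ψ s x‖ ^ 2) :=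
    fun x => (J_eq h η hη x).symm
  simp only [h1]
  have hm : ∀ x, Measurable fun s =>
      ENNReal.ofReal (Real.exp (-(2 * η) * s) * ‖ψ s x‖ ^ 2) := fun x =>
    (Continuous.mul (by fun_prop) ((h.cont x).norm.pow 2)).measurable.ennreal_ofReal
  rw [← lintegral_tsum fun x => (hm x).aemeasurable]
  have h2 : ∀ s, ∑' x, ENNReal.ofReal (Real.exp (-(2 * η) * s) * ‖ψ s x‖ ^ 2) =
      ENNReal.ofReal (Real.exp (-(2 * η) * s)) := by
    intro s
    rw [← ENNReal.ofReal_tsum_of_nonneg (fun x => by positivity)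
      ((h.norm s).summable.mul_left _), tsum_mul_left, (h.norm s).tsum_eq, mul_one]
  simp only [h2]
  rw [← ofReal_integral_eq_lintegral_ofReal (exp_int (2 * η) (by positivity))
    (Eventually.of_forall fun s => (Real.exp_pos _).le), exp_val (2 * η) (by positivity)]

theorem J_summable (h : Sol d V a ψ) (η : ℝ) (hη : 0 < η) : Summable (J ψ η) := by
  have h4 : ∑' x, ENNReal.ofReal (J ψ η x) ≠ ⊤ := by
    rw [J_tsum h η hη]
    exact ENNReal.ofReal_ne_top
  have h5 := ENNReal.summable_toReal h4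
  refine h5.congr fun x => ?_
  rw [ENNReal.toReal_ofReal (J_nonneg ψ η x)]

theorem La_lint (h : Sol d V a ψ) (η : ℝ) (hη : 0 < η) (x : Zd d) :
    ∫⁻ e : ℝ, ENNReal.ofReal (‖La ψ e η x‖ ^ 2) = ENNReal.ofReal (2 * Real.pi * J ψ η x) := by
  have h1 := planchLa h η hη x
  rw [J_eq h η hη x, ← ENNReal.ofReal_mul (by positivity)] at h1
  rw [← h1]
  refine lintegral_congr fun e => ?_
  rw [ENNReal.ofReal_pow (norm_nonneg _), ofReal_norm]

theorem La_ints (h : Sol d V a ψ) (η : ℝ) (hη : 0 < η) (x : Zd d) :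
    Integrable (fun e : ℝ => ‖La ψ e η x‖ ^ 2) ∧
      ∫ e : ℝ, ‖La ψ e η x‖ ^ 2 = 2 * Real.pi * J ψ η x := by
  have hm : Continuous fun e : ℝ => ‖La ψ e η x‖ ^ 2 := (La_contE h η hη x).norm.pow 2
  have h1 := La_lint h η hη x
  have hi : Integrable (fun e : ℝ => ‖La ψ e η x‖ ^ 2) := by
    refine ⟨hm.aestronglyMeasurable, ?_⟩
    rw [hasFiniteIntegral_iff_ofReal (Eventually.of_forall fun e => sq_nonneg _), h1]
    exact ENNReal.ofReal_lt_top
  refine ⟨hi, ?_⟩
  rw [integral_eq_lintegral_of_nonneg_ae (Eventually.of_forall fun e => sq_nonneg _)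
    hm.aestronglyMeasurable, h1, ENNReal.toReal_ofReal]
  have := J_nonneg ψ η x
  positivity

/-- the mass of the resolvent -/
theorem La_mass (h : Sol d V a ψ) (η : ℝ) (hη : 0 < η) :
    Integrable (fun e : ℝ => ∑' x, ‖La ψ e η x‖ ^ 2) ∧
      ∫ e : ℝ, ∑' x, ‖La ψ e η x‖ ^ 2 = Real.pi / η := by
  have h1 := hasSum_integral_of_summable_integral_norm (μ := (volume : Measure ℝ))
    (F := fun x e => ‖La ψ e η x‖ ^ 2) (fun x => (La_ints h η hη x).1) (by
      have h2 : ∀ x, ∫ e : ℝ, ‖‖La ψ e η x‖ ^ 2‖ = 2 * Real.pi * J ψ η x := by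
        intro x
        rw [← (La_ints h η hη x).2]
        refine integral_congr_ae (Eventually.of_forall fun e => ?_)
        exact Real.norm_of_nonneg (sq_nonneg _)
      simp only [h2]
      exact (J_summable h η hη).mul_left _)
  have hs : ∀ e, Summable fun x => ‖La ψ e η x‖ ^ 2 := fun e => by
    have := La_sum h e η hη
    refine this.congr fun x => ?_
    rw [norm_mul, Complex.norm_I, one_mul]
  have h3 : ∫ e : ℝ, ∑' x, ‖La ψ e η x‖ ^ 2 = Real.pi / η := by
    rw [← h1.tsum_eq]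
    have h4 : ∀ x, ∫ e : ℝ, ‖La ψ e η x‖ ^ 2 = 2 * Real.pi * J ψ η x := fun x =>
      (La_ints h η hη x).2
    simp only [h4]
    rw [tsum_mul_left]
    have h5 : ∑' x, J ψ η x = (2 * η)⁻¹ := by
      have h6 := J_tsum h η hη
      rw [← ENNReal.ofReal_tsum_of_nonneg (fun x => J_nonneg ψ η x) (J_summable h η hη)] at h6
      exact (ENNReal.ofReal_eq_ofReal_iff (tsum_nonneg fun x => J_nonneg ψ η x)
        (by positivity)).1 h6
    rw [h5]
    field_simp
  refine ⟨?_, h3⟩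
  by_contra hcon
  rw [integral_undef hcon] at h3
  have : 0 < Real.pi / η := div_pos Real.pi_pos hη
  linarith

/-- **Plancherel's identity with a weight** -/
theorem planchX (h : Sol d V a ψ) (η : ℝ) (hη : 0 < η) (X : Zd d → ℂ) (hX : ∀ x, ‖X x‖ ≤ 1) :
    Integrable (fun e : ℝ => ∑' x, X x * ((‖La ψ e η x‖ ^ 2 : ℝ) : ℂ)) ∧
    IntegrableOn (fun s : ℝ => ((Real.exp (-(2 * η) * s) : ℝ) : ℂ) *
      ∑' x, X x * ((‖ψ s x‖ ^ 2 : ℝ) : ℂ)) (Ioi (0 : ℝ)) ∧
    ∫ e : ℝ, ∑' x, X x * ((‖La ψ e η x‖ ^ 2 : ℝ) : ℂ) =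
      ((2 * Real.pi : ℝ) : ℂ) * ∫ s in Ioi (0 : ℝ), ((Real.exp (-(2 * η) * s) : ℝ) : ℂ) *
        ∑' x, X x * ((‖ψ s x‖ ^ 2 : ℝ) : ℂ) := by
  have hs : ∀ e, Summable fun x => ‖La ψ e η x‖ ^ 2 := fun e => by
    have := La_sum h e η hη
    refine this.congr fun x => ?_
    rw [norm_mul, Complex.norm_I, one_mul]
  have hs2 : ∀ s, Summable fun x => ‖ψ s x‖ ^ 2 := fun s => (h.norm s).summable
  have hI1 : Integrable (fun e : ℝ => ∑' x, X x * ((‖La ψ e η x‖ ^ 2 : ℝ) : ℂ)) := by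
    refine Integrable.mono' (La_mass h η hη).1 ?_ (Eventually.of_forall fun e => ?_)
    · exact (tsum_meas X (fun x e => ‖La ψ e η x‖ ^ 2)
        (fun x => ((La_contE h η hη x).norm.pow 2).measurable)
        (fun e => sum_ok X hX _ (hs e))).aestronglyMeasurable
    · exact sum_le X hX _ (hs e)
  have hI2 : IntegrableOn (fun s : ℝ => ((Real.exp (-(2 * η) * s) : ℝ) : ℂ) *
      ∑' x, X x * ((‖ψ s x‖ ^ 2 : ℝ) : ℂ)) (Ioi (0 : ℝ)) := by
    refine Integrable.mono' (exp_int (2 * η) (by positivity)) ?_ (Eventually.of_forall fun s => ?_)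
    · refine (Measurable.mul (by fun_prop) (tsum_meas X (fun x s => ‖ψ s x‖ ^ 2)
        (fun x => ((h.cont x).norm.pow 2).measurable)
        (fun s => sum_ok X hX _ (hs2 s)))).aestronglyMeasurable
    · rw [norm_mul, Complex.norm_real, Real.norm_of_nonneg (Real.exp_pos _).le]
      refine mul_le_of_le_one_right (Real.exp_pos _).le ?_
      rw [← (h.norm s).tsum_eq]
      exact sum_le X hX _ (hs2 s)
  refine ⟨hI1, hI2, ?_⟩
  have h1 := hasSum_integral_of_summable_integral_norm (μ := (volume : Measure ℝ))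
    (F := fun x e => X x * ((‖La ψ e η x‖ ^ 2 : ℝ) : ℂ))
    (fun x => ((La_ints h η hη x).1.ofReal).const_mul _) (by
      refine Summable.of_nonneg_of_le (fun x => integral_nonneg fun e => norm_nonneg _) (fun x => ?_)
        ((J_summable h η hη).mul_left (2 * Real.pi))
      rw [← (La_ints h η hη x).2]
      refine integral_mono (((La_ints h η hη x).1.ofReal).const_mul _).norm (La_ints h η hη x).1
        fun e => ?_
      rw [norm_mul, Complex.norm_real, Real.norm_of_nonneg (sq_nonneg _)]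
      exact mul_le_of_le_one_left (sq_nonneg _) (hX x))
  have h2 := hasSum_integral_of_summable_integral_norm
    (μ := (volume : Measure ℝ).restrict (Ioi (0 : ℝ)))
    (F := fun x s => X x * ((Real.exp (-(2 * η) * s) * ‖ψ s x‖ ^ 2 : ℝ) : ℂ))
    (fun x => ((J_int h η hη x).ofReal).const_mul _) (by
      refine Summable.of_nonneg_of_le (fun x => integral_nonneg fun e => norm_nonneg _) (fun x => ?_)
        (J_summable h η hη)
      refine integral_mono (((J_int h η hη x).ofReal).const_mul _).norm (J_int h η hη x)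
        fun s => ?_
      rw [norm_mul, Complex.norm_real, Real.norm_of_nonneg (by positivity)]
      exact mul_le_of_le_one_left (by positivity) (hX x))
  have h3 : ∀ x, ∫ e : ℝ, X x * ((‖La ψ e η x‖ ^ 2 : ℝ) : ℂ) =
      ((2 * Real.pi : ℝ) : ℂ) * ∫ s in Ioi (0 : ℝ),
        X x * ((Real.exp (-(2 * η) * s) * ‖ψ s x‖ ^ 2 : ℝ) : ℂ) := by
    intro x
    rw [integral_const_mul, integral_const_mul, integral_complex_ofReal, integral_complex_ofReal,
      (La_ints h η hη x).2]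
    unfold J
    push_cast
    ring
  have h4 : ∀ s, ((Real.exp (-(2 * η) * s) : ℝ) : ℂ) * ∑' x, X x * ((‖ψ s x‖ ^ 2 : ℝ) : ℂ) =
      ∑' x, X x * ((Real.exp (-(2 * η) * s) * ‖ψ s x‖ ^ 2 : ℝ) : ℂ) := by
    intro s
    rw [← tsum_mul_left]
    refine tsum_congr fun x => ?_
    push_cast
    ring
  simp only [h4]
  rw [← h1.tsum_eq, ← h2.tsum_eq, ← tsum_mul_left]
  exact tsum_congr h3

end

end Pool.Agent.H189.W
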