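import Pool.Agent.R988.Msd3

/-! The free density of states is normalised. -/

set_option autoImplicit false
set_option linter.unusedVariables false
set_option linter.unusedSectionVars false

open scoped BigOperators Topology ENNReal
open MeasureTheory Filter Set

namespace Pool.Agent.H189.W

open Pool.Agent.TH794.QD
open Pool.Agent.TH794.QE
open Pool.Agent.R988

instance (d : ℕ) : IsProbabilityMeasure (cube d) := by
  unfold cube
  have : ∀ i : Fin d, IsProbabilityMeasure ((volume : Measure ℝ).restrict (Set.Icc (0 : ℝ) 1)) :=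
    fun _ => ⟨by simp⟩
  infer_instance

/-- the Poisson kernel -/
noncomputable def pk (t x : ℝ) : ℝ := t / (x ^ 2 + t ^ 2)

theorem pk_cont (t : ℝ) (ht : 0 < t) : Continuous (pk t) := by
  unfold pk
  refine Continuous.div (by fun_prop) (by fun_prop) fun x => ?_
  positivity

theorem pk_nonneg (t x : ℝ) (ht : 0 < t) : 0 ≤ pk t x := by
  unfold pk
  positivity

theorem pk_le (t x : ℝ) (ht : 0 < t) : pk t x ≤ t⁻¹ := by
  unfold pk
  rw [div_le_iff₀ (by positivity)]
  have : t⁻¹ * (x ^ 2 + t ^ 2) = t⁻¹ * x ^ 2 + t := by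
    field_simp
  rw [this]
  have : 0 ≤ t⁻¹ * x ^ 2 := by positivity
  linarith

theorem pk_int (t s R : ℝ) (ht : 0 < t) :
    ∫ E in (-R)..R, pk t (s - E) = Real.arctan ((R - s) / t) + Real.arctan ((R + s) / t) := by
  have h1 : ∀ E : ℝ, pk t (s - E) = t * (t ^ 2 + (E - s) ^ 2)⁻¹ := by
    intro E
    unfold pk
    rw [div_eq_mul_inv]
    congr 2
    ring
  simp only [h1]
  rw [intervalIntegral.integral_const_mul,
    intervalIntegral.integral_comp_sub_right (fun x => (t ^ 2 + x ^ 2)⁻¹) s,
    integral_inv_sq_add_sq ht.ne', ← mul_assoc, mul_inv_cancel₀ ht.ne', one_mul]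
  have h2 : (-R - s) / t = -((R + s) / t) := by ring
  rw [h2, Real.arctan_neg]
  ring

theorem GF0_im (d : ℕ) (E t : ℝ) (ht : 0 < t) :
    (GF (F0 d) ((E : ℂ) + (t : ℂ) * Complex.I)).im = ∫ k, pk t (sym k - E) ∂(cube d) := by
  have hz : 0 < ((E : ℂ) + (t : ℂ) * Complex.I).im := by simpa using ht
  rw [GF0_cube d _ hz]
  have h1 := GF_mixi (cube d) (fun _ => 1) sym measurable_const (sym_cont d).measurable
    (fun _ => by simp) _ bampOne _ hz
  have h2 : ∀ k : Fin d → ℝ, GF (fun _ => (1 : ℂ))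
      ((E : ℂ) + (t : ℂ) * Complex.I - ((sym k : ℝ) : ℂ)) =
      ((sym k : ℂ) - ((E : ℂ) + (t : ℂ) * Complex.I))⁻¹ := by
    intro k
    rw [GF_one _ (by simpa using hz), ← inv_neg, neg_sub]
  simp only [h2, one_mul] at h1
  have h3 := Complex.imCLM.integral_comp_comm h1
  simp only [Complex.imCLM_apply] at h3
  rw [← h3]
  refine integral_congr_ae (Eventually.of_forall fun k => ?_)
  simp only
  rw [Complex.inv_im]
  have h4 : (-((sym k : ℂ) - ((E : ℂ) + (t : ℂ) * Complex.I)).im) = t := by simp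
  have h5 : Complex.normSq ((sym k : ℂ) - ((E : ℂ) + (t : ℂ) * Complex.I)) =
      (sym k - E) ^ 2 + t ^ 2 := by
    rw [Complex.normSq_apply]
    simp
    ring
  rw [h4, h5]
  rfl

/-- outside of the band the density of states vanishes -/
theorem g0_out (d : ℕ) (hd : 3 ≤ d) (E : ℝ) (hE : 2 * (d : ℝ) < |E|) :
    (GF (F0 d) (E : ℂ)).im = 0 := by
  have hlim := lim3 _ _ (hol0 Pool.Agent.W918.BK.Osc.osc d hd) E
  have l1 := (Complex.continuous_im.tendsto _).comp hlim
  obtain ⟨D, hD⟩ : ∃ D, D = |E| - 2 * (d : ℝ) := ⟨_, rfl⟩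
  have hD0 : 0 < D := by rw [hD]; linarith
  have hb : ∀ t : ℝ, 0 < t → 0 ≤ (GF (F0 d) ((E : ℂ) + (t : ℂ) * Complex.I)).im ∧
      (GF (F0 d) ((E : ℂ) + (t : ℂ) * Complex.I)).im ≤ t * D⁻¹ ^ 2 := by
    intro t ht
    rw [GF0_im d E t ht]
    refine ⟨integral_nonneg fun k => pk_nonneg _ _ ht, ?_⟩
    have h1 : ∀ k : Fin d → ℝ, ‖pk t (sym k - E)‖ ≤ t * D⁻¹ ^ 2 := by
      intro k
      rw [Real.norm_of_nonneg (pk_nonneg _ _ ht)]
      unfold pk
      have h7 : D ≤ |sym k - E| := by
        have h8 := sym_abs k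
        have h9 := abs_sub_abs_le_abs_sub E (sym k)
        rw [abs_sub_comm E] at h9
        rw [hD]
        linarith
      have h10 := pow_le_pow_left₀ hD0.le h7 2
      rw [sq_abs] at h10
      rw [inv_pow, ← div_eq_mul_inv]
      gcongr
      nlinarith [sq_nonneg t]
    have h2 := norm_integral_le_of_norm_le_const (μ := cube d)
      (Eventually.of_forall h1)
    rw [probReal_univ, mul_one] at h2
    exact (le_abs_self _).trans h2
  have l2 : Tendsto (fun t : ℝ => t * D⁻¹ ^ 2) (𝓝[>] 0) (𝓝 0) := by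
    have h1 : Continuous fun t : ℝ => t * D⁻¹ ^ 2 := by fun_prop
    have h2 := (h1.tendsto 0).mono_left (nhdsWithin_le_nhds (s := Ioi 0))
    rwa [zero_mul] at h2
  have l3 : Tendsto (fun t : ℝ => (GF (F0 d) ((E : ℂ) + (t : ℂ) * Complex.I)).im)
      (𝓝[>] 0) (𝓝 0) := by
    refine squeeze_zero' ?_ ?_ l2
    · filter_upwards [self_mem_nhdsWithin] with t ht
      exact (hb t ht).1
    · filter_upwards [self_mem_nhdsWithin] with t ht
      exact (hb t ht).2
  exact tendsto_nhds_unique l1 l3

theorem g0_cont (d : ℕ) (hd : 3 ≤ d) : Continuous fun E : ℝ => (GF (F0 d) (E : ℂ)).im :=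
  hol_cont _ _ (hol0 Pool.Agent.W918.BK.Osc.osc d hd)

theorem g0_nonneg (d : ℕ) (hd : 3 ≤ d) (E : ℝ) : 0 ≤ (GF (F0 d) (E : ℂ)).im := by
  have h1 := GF_im Pool.Agent.W918.BK.Osc.osc d hd (E : ℂ) (by simp)
  linarith [h1.1, h1.2]

/-- the integral of the regularised density -/
theorem pois_ge (d : ℕ) (hd : 3 ≤ d) (t : ℝ) (ht : 0 < t) : 2 * Real.arctan (d / t) ≤
    ∫ E in (-(3 * (d : ℝ)))..(3 * d), (GF (F0 d) ((E : ℂ) + (t : ℂ) * Complex.I)).im := by
  have hd0 : (0 : ℝ) ≤ d := Nat.cast_nonneg d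
  simp only [GF0_im d _ t ht]
  rw [intervalIntegral.integral_of_le (by linarith)]
  have hint : Integrable (Function.uncurry fun (E : ℝ) (k : Fin d → ℝ) => pk t (sym k - E))
      (((volume : Measure ℝ).restrict (Ioc (-(3 * (d : ℝ))) (3 * d))).prod (cube d)) := by
    refine Integrable.of_bound (C := t⁻¹) ?_ (Eventually.of_forall fun p => ?_)
    · have : Continuous (Function.uncurry fun (E : ℝ) (k : Fin d → ℝ) => pk t (sym k - E)) :=
        (pk_cont t ht).comp (((sym_cont d).comp continuous_snd).sub continuous_fst)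
      exact this.aestronglyMeasurable
    · unfold Function.uncurry
      rw [Real.norm_of_nonneg (pk_nonneg _ _ ht)]
      exact pk_le _ _ ht
  rw [integral_integral_swap hint]
  have h1 : ∀ k : Fin d → ℝ, 2 * Real.arctan (d / t) ≤
      ∫ E in Ioc (-(3 * (d : ℝ))) (3 * d), pk t (sym k - E) := by
    intro k
    rw [← intervalIntegral.integral_of_le (by linarith), pk_int t _ _ ht]
    have h2 := abs_le.1 (sym_abs k)
    have h3 : Real.arctan (d / t) ≤ Real.arctan ((3 * d - sym k) / t) := by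
      refine Real.arctan_mono ?_
      gcongr
      linarith
    have h4 : Real.arctan (d / t) ≤ Real.arctan ((3 * d + sym k) / t) := by
      refine Real.arctan_mono ?_
      gcongr
      linarith
    linarith
  calc 2 * Real.arctan (d / t) = ∫ k : Fin d → ℝ, 2 * Real.arctan (d / t) ∂(cube d) := by
        rw [integral_const, probReal_univ, one_smul]
    _ ≤ _ := integral_mono (integrable_const _) hint.integral_prod_right h1

/-- the integral of the regularised density -/
theorem pois_le (d : ℕ) (hd : 3 ≤ d) (t : ℝ) (ht : 0 < t) :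
    ∫ E in (-(2 * (d : ℝ)))..(2 * d), (GF (F0 d) ((E : ℂ) + (t : ℂ) * Complex.I)).im ≤
      Real.pi := by
  have hd0 : (0 : ℝ) ≤ d := Nat.cast_nonneg d
  simp only [GF0_im d _ t ht]
  rw [intervalIntegral.integral_of_le (by linarith)]
  have hint : Integrable (Function.uncurry fun (E : ℝ) (k : Fin d → ℝ) => pk t (sym k - E))
      (((volume : Measure ℝ).restrict (Ioc (-(2 * (d : ℝ))) (2 * d))).prod (cube d)) := by
    refine Integrable.of_bound (C := t⁻¹) ?_ (Eventually.of_forall fun p => ?_)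
    · have : Continuous (Function.uncurry fun (E : ℝ) (k : Fin d → ℝ) => pk t (sym k - E)) :=
        (pk_cont t ht).comp (((sym_cont d).comp continuous_snd).sub continuous_fst)
      exact this.aestronglyMeasurable
    · unfold Function.uncurry
      rw [Real.norm_of_nonneg (pk_nonneg _ _ ht)]
      exact pk_le _ _ ht
  rw [integral_integral_swap hint]
  have h1 : ∀ k : Fin d → ℝ, ∫ E in Ioc (-(2 * (d : ℝ))) (2 * d), pk t (sym k - E) ≤
      Real.pi := by
    intro k
    rw [← intervalIntegral.integral_of_le (by linarith), pk_int t _ _ ht]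
    have h3 := Real.arctan_lt_pi_div_two ((2 * d - sym k) / t)
    have h4 := Real.arctan_lt_pi_div_two ((2 * d + sym k) / t)
    linarith
  calc _ ≤ ∫ k : Fin d → ℝ, Real.pi ∂(cube d) :=
        integral_mono hint.integral_prod_right (integrable_const _) h1
    _ = Real.pi := by rw [integral_const, probReal_univ, one_smul]

theorem dos_le (d : ℕ) (hd : 3 ≤ d) :
    ∫ E in (-(2 * (d : ℝ)))..(2 * d), (GF (F0 d) (E : ℂ)).im ≤ Real.pi := by
  have hd3 : (3 : ℝ) ≤ d := by exact_mod_cast hd
  obtain ⟨g, hg⟩ : ∃ g : ℝ → ℝ, g = fun E : ℝ => (GF (F0 d) (E : ℂ)).im := ⟨_, rfl⟩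
  have hgc : Continuous g := by rw [hg]; exact g0_cont d hd
  have h1 : ∀ t : ℝ, 0 < t → ∫ E in (-(2 * (d : ℝ)))..(2 * d), g E ≤
      Real.pi + 4 * d * (CH d * t ^ (1 / 8 : ℝ)) := by
    intro t ht
    have h2 := pois_le d hd t ht
    have h3 : ∀ E : ℝ, |(GF (F0 d) ((E : ℂ) + (t : ℂ) * Complex.I)).im - g E| ≤
        CH d * t ^ (1 / 8 : ℝ) := by
      intro E
      rw [hg, ← Complex.sub_im]
      refine (Complex.abs_im_le_norm _).trans ?_
      have h4 := hol0 Pool.Agent.W918.BK.Osc.osc d hd ((E : ℂ) + (t : ℂ) * Complex.I) (E : ℂ)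
        (by simpa using ht.le) (by simp)
      have h5 : ‖(E : ℂ) + (t : ℂ) * Complex.I - (E : ℂ)‖ = t := by
        rw [add_sub_cancel_left, norm_mul, Complex.norm_I, mul_one, Complex.norm_real,
          Real.norm_of_nonneg ht.le]
      rw [h5] at h4
      exact h4
    have h6 : Continuous fun E : ℝ => (GF (F0 d) ((E : ℂ) + (t : ℂ) * Complex.I)).im := by
      have h7 : Continuous fun E : ℝ => GF (F0 d) ((E : ℂ) + (t : ℂ) * Complex.I) := by
        rw [continuous_iff_continuousAt]
        intro E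
        unfold ContinuousAt
        rw [tendsto_iff_norm_sub_tendsto_zero]
        have h2 : Tendsto (fun E' : ℝ => CH d * ‖(E' : ℂ) - (E : ℂ)‖ ^ (1 / 8 : ℝ))
            (𝓝 E) (𝓝 0) := by
          have h3 : Continuous fun E' : ℝ => CH d * ‖(E' : ℂ) - (E : ℂ)‖ ^ (1 / 8 : ℝ) := by
            refine continuous_const.mul ?_
            refine Continuous.rpow_const (by fun_prop) fun x => Or.inr (by norm_num)
          have h4 := h3.tendsto E
          simp only [sub_self, norm_zero] at h4
          rw [Real.zero_rpow (by norm_num), mul_zero] at h4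
          exact h4
        refine squeeze_zero (fun _ => norm_nonneg _) (fun E' => ?_) h2
        have h8 := hol0 Pool.Agent.W918.BK.Osc.osc d hd ((E' : ℂ) + (t : ℂ) * Complex.I)
          ((E : ℂ) + (t : ℂ) * Complex.I) (by simpa using ht.le) (by simpa using ht.le)
        rwa [add_sub_add_right_eq_sub] at h8
      exact Complex.continuous_im.comp h7
    have h8 : ∫ E in (-(2 * (d : ℝ)))..(2 * d), (g E - CH d * t ^ (1 / 8 : ℝ)) ≤
        ∫ E in (-(2 * (d : ℝ)))..(2 * d),
        (GF (F0 d) ((E : ℂ) + (t : ℂ) * Complex.I)).im := by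
      refine intervalIntegral.integral_mono_on (by linarith)
        ((hgc.sub continuous_const).intervalIntegrable _ _) (h6.intervalIntegrable _ _)
        fun E _ => ?_
      have := (abs_le.1 (h3 E)).1
      linarith
    rw [intervalIntegral.integral_sub (hgc.intervalIntegrable _ _)
      (continuous_const.intervalIntegrable _ _), intervalIntegral.integral_const, smul_eq_mul] at h8
    have h9 : (2 * (d : ℝ) - -(2 * d)) * (CH d * t ^ (1 / 8 : ℝ)) =
        4 * d * (CH d * t ^ (1 / 8 : ℝ)) := by ring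
    rw [h9] at h8
    linarith
  have l1 : Tendsto (fun t : ℝ => Real.pi + 4 * d * (CH d * t ^ (1 / 8 : ℝ)))
      (𝓝[>] 0) (𝓝 (Real.pi + 4 * d * (CH d * 0))) := by
    refine Tendsto.const_add _ (Tendsto.const_mul _ (Tendsto.const_mul _ ?_))
    have h3 : Continuous fun t : ℝ => t ^ (1 / 8 : ℝ) :=
      Real.continuous_rpow_const (by norm_num)
    have h4 := (h3.tendsto 0).mono_left (nhdsWithin_le_nhds (s := Ioi 0))
    rwa [Real.zero_rpow (by norm_num)] at h4
  have h2 := ge_of_tendsto l1 (by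
    filter_upwards [self_mem_nhdsWithin] with t ht
    exact h1 t ht)
  rw [hg] at h2
  simp only [mul_zero, add_zero] at h2
  exact h2

/-- **the density of states is normalised** -/
theorem dos_ge (d : ℕ) (hd : 3 ≤ d) :
    Real.pi ≤ ∫ E in (-(2 * (d : ℝ)))..(2 * d), (GF (F0 d) (E : ℂ)).im := by
  have hd3 : (3 : ℝ) ≤ d := by exact_mod_cast hd
  obtain ⟨g, hg⟩ : ∃ g : ℝ → ℝ, g = fun E : ℝ => (GF (F0 d) (E : ℂ)).im := ⟨_, rfl⟩
  have hgc : Continuous g := by rw [hg]; exact g0_cont d hd
  have h0 : ∫ E in (-(2 * (d : ℝ)))..(2 * d), g E = ∫ E in (-(3 * (d : ℝ)))..(3 * d), g E := by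
    have e1 : ∫ E in (-(3 * (d : ℝ)))..(-(2 * d)), g E = 0 := by
      rw [intervalIntegral.integral_of_le (by linarith), integral_Ioc_eq_integral_Ioo]
      refine setIntegral_eq_zero_of_forall_eq_zero fun E hE => ?_
      rw [hg]
      refine g0_out d hd E ?_
      rw [abs_of_neg (by linarith [hE.2])]
      linarith [hE.2]
    have e2 : ∫ E in (2 * (d : ℝ))..(3 * d), g E = 0 := by
      rw [intervalIntegral.integral_of_le (by linarith)]
      refine setIntegral_eq_zero_of_forall_eq_zero fun E hE => ?_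
      rw [hg]
      refine g0_out d hd E ?_
      rw [abs_of_pos (by linarith [hE.1])]
      linarith [hE.1]
    have s1 := intervalIntegral.integral_add_adjacent_intervals (μ := volume)
      (hgc.intervalIntegrable (-(3 * (d : ℝ))) (-(2 * d)))
      (hgc.intervalIntegrable (-(2 * (d : ℝ))) (2 * d))
    have s2 := intervalIntegral.integral_add_adjacent_intervals (μ := volume)
      (hgc.intervalIntegrable (-(3 * (d : ℝ))) (2 * d))
      (hgc.intervalIntegrable (2 * (d : ℝ)) (3 * d))
    linarith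
  have h1 : ∀ t : ℝ, 0 < t → 2 * Real.arctan (d / t) - 6 * d * (CH d * t ^ (1 / 8 : ℝ)) ≤
      ∫ E in (-(2 * (d : ℝ)))..(2 * d), g E := by
    intro t ht
    have h2 := pois_ge d hd t ht
    have h3 : ∀ E : ℝ, |(GF (F0 d) ((E : ℂ) + (t : ℂ) * Complex.I)).im - g E| ≤
        CH d * t ^ (1 / 8 : ℝ) := by
      intro E
      rw [hg, ← Complex.sub_im]
      refine (Complex.abs_im_le_norm _).trans ?_
      have h4 := hol0 Pool.Agent.W918.BK.Osc.osc d hd ((E : ℂ) + (t : ℂ) * Complex.I) (E : ℂ)
        (by simpa using ht.le) (by simp)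
      have h5 : ‖(E : ℂ) + (t : ℂ) * Complex.I - (E : ℂ)‖ = t := by
        rw [add_sub_cancel_left, norm_mul, Complex.norm_I, mul_one, Complex.norm_real,
          Real.norm_of_nonneg ht.le]
      rw [h5] at h4
      exact h4
    have h6 : Continuous fun E : ℝ => (GF (F0 d) ((E : ℂ) + (t : ℂ) * Complex.I)).im := by
      have h7 : Continuous fun E : ℝ => GF (F0 d) ((E : ℂ) + (t : ℂ) * Complex.I) := by
        rw [continuous_iff_continuousAt]
        intro E
        unfold ContinuousAt
        rw [tendsto_iff_norm_sub_tendsto_zero]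
        have h2 : Tendsto (fun E' : ℝ => CH d * ‖(E' : ℂ) - (E : ℂ)‖ ^ (1 / 8 : ℝ))
            (𝓝 E) (𝓝 0) := by
          have h3 : Continuous fun E' : ℝ => CH d * ‖(E' : ℂ) - (E : ℂ)‖ ^ (1 / 8 : ℝ) := by
            refine continuous_const.mul ?_
            refine Continuous.rpow_const (by fun_prop) fun x => Or.inr (by norm_num)
          have h4 := h3.tendsto E
          simp only [sub_self, norm_zero] at h4
          rw [Real.zero_rpow (by norm_num), mul_zero] at h4
          exact h4
        refine squeeze_zero (fun _ => norm_nonneg _) (fun E' => ?_) h2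
        have h8 := hol0 Pool.Agent.W918.BK.Osc.osc d hd ((E' : ℂ) + (t : ℂ) * Complex.I)
          ((E : ℂ) + (t : ℂ) * Complex.I) (by simpa using ht.le) (by simpa using ht.le)
        rwa [add_sub_add_right_eq_sub] at h8
      exact Complex.continuous_im.comp h7
    have h8 : ∫ E in (-(3 * (d : ℝ)))..(3 * d),
        (GF (F0 d) ((E : ℂ) + (t : ℂ) * Complex.I)).im ≤
        ∫ E in (-(3 * (d : ℝ)))..(3 * d), (g E + CH d * t ^ (1 / 8 : ℝ)) := by
      refine intervalIntegral.integral_mono_on (by linarith) (h6.intervalIntegrable _ _)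
        ((hgc.add continuous_const).intervalIntegrable _ _) fun E _ => ?_
      have := (abs_le.1 (h3 E)).2
      linarith
    rw [intervalIntegral.integral_add (hgc.intervalIntegrable _ _)
      (continuous_const.intervalIntegrable _ _), intervalIntegral.integral_const, smul_eq_mul] at h8
    rw [h0]
    have h9 : (3 * (d : ℝ) - -(3 * d)) * (CH d * t ^ (1 / 8 : ℝ)) =
        6 * d * (CH d * t ^ (1 / 8 : ℝ)) := by ring
    rw [h9] at h8
    linarith
  have l1 : Tendsto (fun t : ℝ => 2 * Real.arctan (d / t) - 6 * d * (CH d * t ^ (1 / 8 : ℝ)))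
      (𝓝[>] 0) (𝓝 (2 * (Real.pi / 2) - 6 * d * (CH d * 0))) := by
    refine Tendsto.sub (Tendsto.const_mul _ ?_) (Tendsto.const_mul _ (Tendsto.const_mul _ ?_))
    · have h2 : Tendsto (fun t : ℝ => (d : ℝ) / t) (𝓝[>] 0) atTop := by
        simp only [div_eq_mul_inv]
        exact tendsto_inv_nhdsGT_zero.const_mul_atTop (by linarith)
      exact (Real.tendsto_arctan_atTop.mono_right nhdsWithin_le_nhds).comp h2
    · have h3 : Continuous fun t : ℝ => t ^ (1 / 8 : ℝ) :=
        Real.continuous_rpow_const (by norm_num)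
      have h4 := (h3.tendsto 0).mono_left (nhdsWithin_le_nhds (s := Ioi 0))
      rwa [Real.zero_rpow (by norm_num)] at h4
  have h2 := le_of_tendsto l1 (by
    filter_upwards [self_mem_nhdsWithin] with t ht
    exact h1 t ht)
  rw [hg] at h2
  simp only [mul_zero, sub_zero] at h2
  linarith

end Pool.Agent.H189.W
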