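import Pool.Agent.H189.W.Dens
import Pool.Agent.H189.W.Plan
import Pool.Agent.H189.W.Dos

/-! From the resolvent profile to the heat equation in the time domain. -/

set_option autoImplicit false
set_option linter.unusedVariables false
set_option linter.unusedSectionVars false

open scoped BigOperators Topology ENNReal
open MeasureTheory Filter Set

namespace Pool.Agent.H189.W

open Pool.Agent.H4R2.LO (Zd)
open Pool.Agent.TH794.QD
open Pool.Agent.TH794.QE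
open Pool.Agent.R988

/-- the density of states times `π` -/
noncomputable def gI (d : ℕ) (E : ℝ) : ℝ := (GF (F0 d) (E : ℂ)).im

/-- the diffusion constant -/
noncomputable def Dc (d : ℕ) (E : ℝ) : ℝ := (GF (F1 d) (E : ℂ)).im / (GF (F0 d) (E : ℂ)).im ^ 2

theorem Dc_nonneg (d : ℕ) (hd : 3 ≤ d) (E : ℝ) : 0 ≤ Dc d E := by
  have h1 := GF_im Pool.Agent.W918.BK.Osc.osc d hd (E : ℂ) (by simp)
  exact div_nonneg h1.1 (sq_nonneg _)

theorem Dc_meas (d : ℕ) (hd : 3 ≤ d) : Measurable (Dc d) := by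
  have h0 := hol_cont _ _ (hol0 Pool.Agent.W918.BK.Osc.osc d hd)
  have h1 := hol_cont _ _ (hol1 Pool.Agent.W918.BK.Osc.osc d hd)
  exact h1.measurable.div (h0.measurable.pow_const 2)

/-- the heat profile -/
noncomputable def Phi (d : ℕ) (ρ s : ℝ) : ℝ :=
  (1 / Real.pi) * ∫ E in (-(2 * (d : ℝ)))..(2 * d), gI d E * Real.exp (-(Dc d E * ρ * s))

theorem gI_bd (d : ℕ) (hd : 3 ≤ d) : ∃ C : ℝ, 0 < C ∧ ∀ E : ℝ, gI d E ≤ C := by
  have hc : Continuous (gI d) := g0_cont d hd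
  obtain ⟨C, hC⟩ := (isCompact_Icc (a := -(2 * (d : ℝ))) (b := 2 * d)).bddAbove_image
    hc.continuousOn
  refine ⟨max C 1, lt_max_of_lt_right one_pos, fun E => ?_⟩
  by_cases hE : E ∈ Icc (-(2 * (d : ℝ))) (2 * d)
  · exact (hC ⟨E, hE, rfl⟩).trans (le_max_left _ _)
  · have h1 : gI d E = 0 := by
      refine g0_out d hd E ?_
      by_contra hcon
      exact hE (abs_le.1 (not_lt.1 hcon))
    rw [h1]
    exact zero_le_one.trans (le_max_right _ _)

section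

variable {d : ℕ} {V : Zd d → ℝ} {a : Zd d} {ψ : ℝ → Zd d → ℂ}

/-- **the bulk carries all the mass** -/
theorem asm (hd : 3 ≤ d) (h : Sol d V a ψ) (η : ℝ) (hη : 0 < η) (c κ θ C0 : ℝ) (hκ : 0 < κ)
    (hκ1 : κ ≤ 1) (hθ : 0 ≤ θ) (hC0 : ∀ E, gI d E ≤ C0) (X : Zd d → ℂ) (hX : ∀ x, ‖X x‖ ≤ 1)
    (A : ℝ → ℝ) (hAm : Measurable A) (hA : ∀ E, 0 ≤ A E ∧ A E ≤ gI d E)
    (h1 : ∀ e, |c - e| ≤ 2 * d - κ →
      ‖(η : ℂ) * ∑' x, X x * ((‖La ψ e η x‖ ^ 2 : ℝ) : ℂ) - ((A (c - e) : ℝ) : ℂ)‖ ≤ θ)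
    (h2 : ∀ e, |c - e| ≤ 2 * d - κ → |η * ∑' x, ‖La ψ e η x‖ ^ 2 - gI d (c - e)| ≤ θ) :
    ‖((2 * η : ℝ) : ℂ) * (∫ s in Ioi (0 : ℝ), ((Real.exp (-(2 * η) * s) : ℝ) : ℂ) *
        ∑' x, X x * ((‖ψ s x‖ ^ 2 : ℝ) : ℂ)) -
      (((1 / Real.pi) * ∫ E in (-(2 * (d : ℝ)))..(2 * d), A E : ℝ) : ℂ)‖ ≤
      (8 * d * θ + 4 * κ * C0) / Real.pi := by
  have hd3 : (3 : ℝ) ≤ d := by exact_mod_cast hd
  have hπ := Real.pi_pos
  have hgc : Continuous (gI d) := g0_cont d hd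
  have hg0 : ∀ E, 0 ≤ gI d E := g0_nonneg d hd
  obtain ⟨hI1, hI2, hpl⟩ := planchX h η hη X hX
  obtain ⟨hM1, hM2⟩ := La_mass h η hη
  have hs : ∀ e, Summable fun x => ‖La ψ e η x‖ ^ 2 := fun e => by
    have := La_sum h e η hη
    refine this.congr fun x => ?_
    rw [norm_mul, Complex.norm_I, one_mul]
  obtain ⟨F, hF⟩ : ∃ F : ℝ → ℂ, F = fun e => ∑' x, X x * ((‖La ψ e η x‖ ^ 2 : ℝ) : ℂ) := ⟨_, rfl⟩
  obtain ⟨m, hm⟩ : ∃ m : ℝ → ℝ, m = fun e => ∑' x, ‖La ψ e η x‖ ^ 2 := ⟨_, rfl⟩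
  have hFm : ∀ e, ‖F e‖ ≤ m e := fun e => by
    rw [hF, hm]
    exact sum_le X hX _ (hs e)
  have hFi : Integrable F := by rw [hF]; exact hI1
  have hmi : Integrable m := by rw [hm]; exact hM1
  have hmv : ∫ e, m e = Real.pi / η := by rw [hm]; exact hM2
  obtain ⟨B, hB⟩ : ∃ B : Set ℝ, B = Icc (c - (2 * d - κ)) (c + (2 * d - κ)) := ⟨_, rfl⟩
  have hBm : MeasurableSet B := by rw [hB]; exact measurableSet_Icc
  have hBe : ∀ e, e ∈ B ↔ |c - e| ≤ 2 * d - κ := by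
    intro e
    rw [hB, mem_Icc, abs_le]
    constructor <;> intro h <;> constructor <;> linarith [h.1, h.2]
  have hBvol : volume.real B = 2 * (2 * d - κ) := by
    rw [hB, Real.volume_real_Icc_of_le (by linarith)]
    ring
  have hBv4 : volume.real B ≤ 4 * d := by rw [hBvol]; linarith
  have hBfin : volume B ≠ ⊤ := by
    rw [hB]
    exact measure_Icc_lt_top.ne
  -- interval integrals
  have hAi : ∀ x y, IntervalIntegrable A volume x y := by
    intro x y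
    refine (hgc.intervalIntegrable x y).mono_fun hAm.aestronglyMeasurable
      (Eventually.of_forall fun E => ?_)
    simp only
    rw [Real.norm_of_nonneg (hA E).1, Real.norm_of_nonneg (hg0 E)]
    exact (hA E).2
  have hsub : ∀ g : ℝ → ℝ, ∫ e in B, g (c - e) = ∫ E in (-(2 * (d : ℝ) - κ))..(2 * d - κ), g E := by
    intro g
    rw [hB, integral_Icc_eq_integral_Ioc, ← intervalIntegral.integral_of_le (by linarith),
      intervalIntegral.integral_comp_sub_left g c]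
    congr 1 <;> ring
  have hsplit : ∀ g : ℝ → ℝ, (∀ x y, IntervalIntegrable g volume x y) →
      ∫ E in (-(2 * (d : ℝ)))..(2 * d), g E = (∫ E in (-(2 * (d : ℝ)))..(-(2 * d - κ)), g E) +
        (∫ E in (-(2 * (d : ℝ) - κ))..(2 * d - κ), g E) + ∫ E in (2 * (d : ℝ) - κ)..(2 * d), g E := by
    intro g hg
    rw [intervalIntegral.integral_add_adjacent_intervals (hg _ _) (hg _ _),
      intervalIntegral.integral_add_adjacent_intervals (hg _ _) (hg _ _)]
  have hedge : ∀ g : ℝ → ℝ, (∀ x y, IntervalIntegrable g volume x y) → (∀ E, 0 ≤ g E) →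
      (∀ E, g E ≤ C0) → 0 ≤ (∫ E in (-(2 * (d : ℝ)))..(-(2 * d - κ)), g E) +
        ∫ E in (2 * (d : ℝ) - κ)..(2 * d), g E ∧
      (∫ E in (-(2 * (d : ℝ)))..(-(2 * d - κ)), g E) + ∫ E in (2 * (d : ℝ) - κ)..(2 * d), g E ≤
        2 * κ * C0 := by
    intro g hg hg0 hgC
    have e1 := intervalIntegral.integral_nonneg (μ := volume) (f := g)
      (show -(2 * (d : ℝ)) ≤ -(2 * d - κ) by linarith) fun E _ => hg0 E
    have e2 := intervalIntegral.integral_nonneg (μ := volume) (f := g)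
      (show 2 * (d : ℝ) - κ ≤ 2 * d by linarith) fun E _ => hg0 E
    have e3 := intervalIntegral.integral_mono_on (μ := volume) (g := fun _ => C0)
      (show -(2 * (d : ℝ)) ≤ -(2 * d - κ) by linarith) (hg _ _)
      (continuous_const.intervalIntegrable _ _) fun E _ => hgC E
    have e4 := intervalIntegral.integral_mono_on (μ := volume) (g := fun _ => C0)
      (show 2 * (d : ℝ) - κ ≤ 2 * d by linarith) (hg _ _)
      (continuous_const.intervalIntegrable _ _) fun E _ => hgC E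
    rw [intervalIntegral.integral_const, smul_eq_mul] at e3 e4
    constructor
    · linarith
    · linarith
  have hgi : ∀ x y, IntervalIntegrable (gI d) volume x y := fun x y => hgc.intervalIntegrable x y
  have g1 := hsplit (gI d) hgi
  have g2 := hedge (gI d) hgi hg0 hC0
  have a1 := hsplit A hAi
  have a2 := hedge A hAi (fun E => (hA E).1) fun E => (hA E).2.trans (hC0 E)
  have hdos : Real.pi ≤ ∫ E in (-(2 * (d : ℝ)))..(2 * d), gI d E := dos_ge d hd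
  -- the mass outside
  have hgB : IntegrableOn (fun e => gI d (c - e)) B := by
    rw [hB]
    exact (hgc.comp (continuous_const.sub continuous_id)).continuousOn.integrableOn_Icc
  have hmB : (∫ e in B, gI d (c - e)) - 4 * d * θ ≤ ∫ e in B, η * m e := by
    have e1 : ∫ e in B, (gI d (c - e) - θ) ≤ ∫ e in B, η * m e := by
      refine setIntegral_mono_on (hgB.sub (integrableOn_const hBfin))
        (hmi.integrableOn.const_mul _) hBm fun e he => ?_
      have := (abs_le.1 (h2 e ((hBe e).1 he))).1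
      rw [hm]
      linarith
    rw [integral_sub hgB (integrableOn_const hBfin), setIntegral_const, smul_eq_mul] at e1
    have e2 := mul_le_mul_of_nonneg_right hBv4 hθ
    linarith
  have hout : ∫ e in Bᶜ, η * m e ≤ 2 * κ * C0 + 4 * d * θ := by
    have e1 := integral_add_compl hBm (hmi.const_mul η)
    have e2 : ∫ e, η * m e = Real.pi := by
      rw [integral_const_mul, hmv]
      field_simp
    rw [e2] at e1
    rw [hsub] at hmB
    linarith [g2.2]
  -- the inside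
  have hAB : IntegrableOn (fun e => A (c - e)) B := by
    refine Integrable.mono' hgB (hAm.comp (measurable_const.sub measurable_id)).aestronglyMeasurable
      (Eventually.of_forall fun e => ?_)
    rw [Real.norm_of_nonneg (hA _).1]
    exact (hA _).2
  have hin : ‖∫ e in B, ((η : ℂ) * F e - ((A (c - e) : ℝ) : ℂ))‖ ≤ 4 * d * θ := by
    have e1 := norm_setIntegral_le_of_norm_le_const (μ := volume) (s := B) (C := θ)
      (f := fun e => ((η : ℂ) * F e - ((A (c - e) : ℝ) : ℂ))) (lt_top_iff_ne_top.2 hBfin)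
      (fun e he => by
        have := h1 e ((hBe e).1 he)
        rw [hF]
        exact this)
    refine e1.trans ?_
    rw [mul_comm]
    exact mul_le_mul_of_nonneg_right hBv4 hθ
  have hin2 : ∫ e in B, ((η : ℂ) * F e - ((A (c - e) : ℝ) : ℂ)) =
      (∫ e in B, (η : ℂ) * F e) -
        ((∫ E in (-(2 * (d : ℝ) - κ))..(2 * d - κ), A E : ℝ) : ℂ) := by
    have e1 : Integrable (fun e => ((A (c - e) : ℝ) : ℂ)) (volume.restrict B) := hAB.ofReal
    have e2 : Integrable (fun e => (η : ℂ) * F e) (volume.restrict B) :=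
      hFi.integrableOn.const_mul _
    rw [integral_sub e2 e1, integral_complex_ofReal, hsub]
  have hout2 : ‖∫ e in Bᶜ, (η : ℂ) * F e‖ ≤ 2 * κ * C0 + 4 * d * θ := by
    refine le_trans ?_ hout
    refine norm_integral_le_of_norm_le (hmi.integrableOn.const_mul _)
      (Eventually.of_forall fun e => ?_)
    rw [norm_mul, Complex.norm_real, Real.norm_of_nonneg hη.le]
    exact mul_le_mul_of_nonneg_left (hFm e) hη.le
  have htot := integral_add_compl hBm (hFi.const_mul (η : ℂ))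
  have hfin : ((2 * η : ℝ) : ℂ) * (∫ s in Ioi (0 : ℝ), ((Real.exp (-(2 * η) * s) : ℝ) : ℂ) *
        ∑' x, X x * ((‖ψ s x‖ ^ 2 : ℝ) : ℂ)) = ((1 / Real.pi : ℝ) : ℂ) * ∫ e, (η : ℂ) * F e := by
    rw [integral_const_mul, hF, hpl]
    push_cast
    have : (Real.pi : ℂ) ≠ 0 := by exact_mod_cast hπ.ne'
    field_simp
  rw [hfin, ← htot]
  obtain ⟨I1, hI1e⟩ : ∃ I1 : ℂ, I1 = ∫ e in B, (η : ℂ) * F e := ⟨_, rfl⟩
  obtain ⟨I2, hI2e⟩ : ∃ I2 : ℂ, I2 = ∫ e in Bᶜ, (η : ℂ) * F e := ⟨_, rfl⟩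
  obtain ⟨AI, hAI⟩ : ∃ AI : ℝ, AI = ∫ E in (-(2 * (d : ℝ) - κ))..(2 * d - κ), A E := ⟨_, rfl⟩
  obtain ⟨AT, hAT⟩ : ∃ AT : ℝ, AT = ∫ E in (-(2 * (d : ℝ)))..(2 * d), A E := ⟨_, rfl⟩
  rw [← hI1e, ← hI2e, ← hAT]
  rw [hin2, ← hI1e, ← hAI] at hin
  rw [← hI2e] at hout2
  rw [← hAI, ← hAT] at a1
  have hdiff : ‖((AT - AI : ℝ) : ℂ)‖ ≤ 2 * κ * C0 := by
    rw [Complex.norm_real, Real.norm_eq_abs, abs_le]
    constructor <;> linarith [a2.1, a2.2]
  have e1 : ((1 / Real.pi : ℝ) : ℂ) * (I1 + I2) - ((1 / Real.pi * AT : ℝ) : ℂ) =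
      ((1 / Real.pi : ℝ) : ℂ) * ((I1 - ((AI : ℝ) : ℂ)) + I2 - ((AT - AI : ℝ) : ℂ)) := by
    push_cast
    ring
  rw [e1, norm_mul, Complex.norm_real, Real.norm_of_nonneg (by positivity), one_div, inv_mul_eq_div]
  refine div_le_div_of_nonneg_right ?_ hπ.le
  calc ‖(I1 - ((AI : ℝ) : ℂ)) + I2 - ((AT - AI : ℝ) : ℂ)‖ ≤
      ‖(I1 - ((AI : ℝ) : ℂ)) + I2‖ + ‖((AT - AI : ℝ) : ℂ)‖ := norm_sub_le _ _
    _ ≤ ‖I1 - ((AI : ℝ) : ℂ)‖ + ‖I2‖ + ‖((AT - AI : ℝ) : ℂ)‖ := by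
        gcongr
        exact norm_add_le _ _
    _ ≤ 4 * d * θ + (2 * κ * C0 + 4 * d * θ) + 2 * κ * C0 := by gcongr
    _ = 8 * d * θ + 4 * κ * C0 := by ring

end

/-- the Laplace transform of the heat profile -/
theorem Phi_laplace (d : ℕ) (hd : 3 ≤ d) (ρ j : ℝ) (hρ : 0 ≤ ρ) (hj : 0 < j) :
    j * (∫ s in Ioi (0 : ℝ), Real.exp (-(j * s)) * Phi d ρ s) =
      (1 / Real.pi) * ∫ E in (-(2 * (d : ℝ)))..(2 * d), gI d E / (1 + Dc d E * (ρ / j)) := by
  have hd0 : (0 : ℝ) ≤ d := Nat.cast_nonneg d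
  obtain ⟨C0, hC0, hC⟩ := gI_bd d hd
  have hgc : Continuous (gI d) := g0_cont d hd
  have hg0 : ∀ E, 0 ≤ gI d E := g0_nonneg d hd
  unfold Phi
  rw [intervalIntegral.integral_of_le (by linarith)]
  have hle : -(2 * (d : ℝ)) ≤ 2 * d := by linarith
  simp only [intervalIntegral.integral_of_le hle]
  have hint : Integrable (Function.uncurry fun (s E : ℝ) =>
      Real.exp (-(j * s)) * (gI d E * Real.exp (-(Dc d E * ρ * s))))
      (((volume : Measure ℝ).restrict (Ioi (0 : ℝ))).prod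
        ((volume : Measure ℝ).restrict (Ioc (-(2 * (d : ℝ))) (2 * d)))) := by
    have h1 : Integrable (fun p : ℝ × ℝ => Real.exp (-j * p.1) * C0)
        (((volume : Measure ℝ).restrict (Ioi (0 : ℝ))).prod
        ((volume : Measure ℝ).restrict (Ioc (-(2 * (d : ℝ))) (2 * d)))) :=
      (exp_neg_integrableOn_Ioi 0 hj).mul_prod (integrable_const C0)
    refine Integrable.mono' h1 ?_ ?_
    · refine Measurable.aestronglyMeasurable ?_
      unfold Function.uncurry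
      have hm1 : Measurable fun p : ℝ × ℝ => gI d p.2 := hgc.measurable.comp measurable_snd
      have hm2 : Measurable fun p : ℝ × ℝ => Dc d p.2 := (Dc_meas d hd).comp measurable_snd
      fun_prop
    · have h2 : ∀ᵐ p : ℝ × ℝ ∂(((volume : Measure ℝ).restrict (Ioi (0 : ℝ))).prod
        ((volume : Measure ℝ).restrict (Ioc (-(2 * (d : ℝ))) (2 * d)))), 0 < p.1 := by
        rw [Measure.prod_restrict]
        refine (ae_restrict_mem (measurableSet_Ioi.prod measurableSet_Ioc)).mono fun p hp => ?_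
        exact hp.1
      refine h2.mono fun p hp => ?_
      unfold Function.uncurry
      have h3 : 0 ≤ gI d p.2 * Real.exp (-(Dc d p.2 * ρ * p.1)) :=
        mul_nonneg (hg0 _) (Real.exp_pos _).le
      rw [Real.norm_of_nonneg (mul_nonneg (Real.exp_pos _).le h3), neg_mul]
      refine mul_le_mul_of_nonneg_left ?_ (Real.exp_pos _).le
      have h4 : Real.exp (-(Dc d p.2 * ρ * p.1)) ≤ 1 := by
        rw [Real.exp_le_one_iff]
        have := Dc_nonneg d hd p.2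
        have : 0 ≤ Dc d p.2 * ρ * p.1 := by positivity
        linarith
      calc gI d p.2 * Real.exp (-(Dc d p.2 * ρ * p.1)) ≤ gI d p.2 * 1 :=
            mul_le_mul_of_nonneg_left h4 (hg0 _)
        _ ≤ C0 := by rw [mul_one]; exact hC _
  have e1 : ∫ s in Ioi (0 : ℝ), Real.exp (-(j * s)) * (1 / Real.pi *
      ∫ E in Ioc (-(2 * (d : ℝ))) (2 * d), gI d E * Real.exp (-(Dc d E * ρ * s))) =
      1 / Real.pi * ∫ s in Ioi (0 : ℝ), ∫ E in Ioc (-(2 * (d : ℝ))) (2 * d),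
        Real.exp (-(j * s)) * (gI d E * Real.exp (-(Dc d E * ρ * s))) := by
    rw [← integral_const_mul]
    refine integral_congr_ae (Eventually.of_forall fun s => ?_)
    simp only
    rw [integral_const_mul]
    ring
  rw [e1, integral_integral_swap hint]
  have e2 : ∀ E : ℝ, ∫ s in Ioi (0 : ℝ), Real.exp (-(j * s)) *
      (gI d E * Real.exp (-(Dc d E * ρ * s))) = gI d E / (1 + Dc d E * (ρ / j)) / j := by
    intro E
    have hD := Dc_nonneg d hd E
    have h0 : 0 < j + Dc d E * ρ := by positivity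
    have e3 : ∀ s, Real.exp (-(j * s)) * (gI d E * Real.exp (-(Dc d E * ρ * s))) =
        gI d E * Real.exp (-(j + Dc d E * ρ) * s) := by
      intro s
      have : Real.exp (-(j + Dc d E * ρ) * s) =
          Real.exp (-(j * s)) * Real.exp (-(Dc d E * ρ * s)) := by
        rw [← Real.exp_add]
        congr 1
        ring
      rw [this]
      ring
    simp only [e3]
    rw [integral_const_mul, exp_val _ h0]
    have h1 : 1 + Dc d E * (ρ / j) = (j + Dc d E * ρ) / j := by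
      field_simp
    rw [h1]
    field_simp
  simp only [e2]
  rw [integral_div]
  have hpi := Real.pi_pos.ne'
  obtain ⟨Y, hY⟩ : ∃ Y : ℝ, Y = ∫ E in Ioc (-(2 * (d : ℝ))) (2 * d),
      gI d E / (1 + Dc d E * (ρ / j)) := ⟨_, rfl⟩
  rw [← hY]
  field_simp

theorem Phi_meas (d : ℕ) (hd : 3 ≤ d) (ρ : ℝ) : Measurable (Phi d ρ) := by
  have hd0 : (0 : ℝ) ≤ d := Nat.cast_nonneg d
  unfold Phi
  simp only [intervalIntegral.integral_of_le (show -(2 * (d : ℝ)) ≤ 2 * d by linarith)]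
  refine measurable_const.mul ?_
  have hgc : Continuous (gI d) := g0_cont d hd
  have h1 : Measurable (Function.uncurry fun (s E : ℝ) =>
      gI d E * Real.exp (-(Dc d E * ρ * s))) := by
    unfold Function.uncurry
    have hm1 : Measurable fun p : ℝ × ℝ => gI d p.2 := hgc.measurable.comp measurable_snd
    have hm2 : Measurable fun p : ℝ × ℝ => Dc d p.2 := (Dc_meas d hd).comp measurable_snd
    fun_prop
  exact (h1.stronglyMeasurable.integral_prod_right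
    (ν := (volume : Measure ℝ).restrict (Ioc (-(2 * (d : ℝ))) (2 * d)))).measurable

theorem Phi_bd (d : ℕ) (hd : 3 ≤ d) (C0 : ℝ) (hC0 : ∀ E, gI d E ≤ C0) (ρ s : ℝ) (hρ : 0 ≤ ρ)
    (hs : 0 ≤ s) : |Phi d ρ s| ≤ (1 / Real.pi) * (4 * d * C0) := by
  have hd0 : (0 : ℝ) ≤ d := Nat.cast_nonneg d
  unfold Phi
  rw [abs_mul, abs_of_pos (by positivity)]
  refine mul_le_mul_of_nonneg_left ?_ (by positivity)
  have h1 := intervalIntegral.norm_integral_le_of_norm_le_const (a := -(2 * (d : ℝ)))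
    (b := 2 * d) (C := C0) (f := fun E => gI d E * Real.exp (-(Dc d E * ρ * s))) (fun E _ => by
      have hD := Dc_nonneg d hd E
      have hg : 0 ≤ gI d E := g0_nonneg d hd E
      rw [Real.norm_of_nonneg (mul_nonneg hg (Real.exp_pos _).le)]
      have h4 : Real.exp (-(Dc d E * ρ * s)) ≤ 1 := by
        rw [Real.exp_le_one_iff]
        have : 0 ≤ Dc d E * ρ * s := by positivity
        linarith
      calc gI d E * Real.exp (-(Dc d E * ρ * s)) ≤ gI d E * 1 :=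
            mul_le_mul_of_nonneg_left h4 hg
        _ ≤ C0 := by rw [mul_one]; exact hC0 _)
  rw [Real.norm_eq_abs] at h1
  refine h1.trans (le_of_eq ?_)
  rw [abs_of_nonneg (by linarith)]
  ring

/-- **the heat equation from the resolvent profile** -/
theorem heat_det (d : ℕ) (hd : 3 ≤ d) (w : ℝ → ℝ) (hw : IntegrableOn w (Ioi (0 : ℝ))) (ε : ℝ)
    (hε : 0 < ε) : ∃ (n : ℕ) (κ θ : ℝ), 0 < κ ∧ κ ≤ 1 ∧ 0 < θ ∧
      ∀ (V : Zd d → ℝ) (a : Zd d) (ψ : ℝ → Zd d → ℂ), Sol d V a ψ →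
      ∀ (c T ρ : ℝ) (X : Zd d → ℂ), 0 < T → (∀ x, ‖X x‖ ≤ 1) → 0 ≤ ρ →
      (∀ j : ℕ, j ≤ n → ∀ e : ℝ, |c - e| ≤ 2 * d - κ →
        ‖((((j : ℝ) + 1) / (2 * T) : ℝ) : ℂ) *
            ∑' x, X x * ((‖La ψ e (((j : ℝ) + 1) / (2 * T)) x‖ ^ 2 : ℝ) : ℂ) -
          ((gI d (c - e) / (1 + Dc d (c - e) * (ρ / ((j : ℝ) + 1))) : ℝ) : ℂ)‖ ≤ θ ∧
        |((j : ℝ) + 1) / (2 * T) * ∑' x, ‖La ψ e (((j : ℝ) + 1) / (2 * T)) x‖ ^ 2 -
          gI d (c - e)| ≤ θ) →
      ‖∫ s in Ioi (0 : ℝ), ((w s : ℝ) : ℂ) *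
        ((∑' x, X x * ((‖ψ (T * s) x‖ ^ 2 : ℝ) : ℂ)) - ((Phi d ρ s : ℝ) : ℂ))‖ ≤ ε := by
  have hd3 : (3 : ℝ) ≤ d := by exact_mod_cast hd
  have hπ := Real.pi_pos
  obtain ⟨C0, hC0, hC⟩ := gI_bd d hd
  obtain ⟨M, hM⟩ : ∃ M, M = 1 + (1 / Real.pi) * (4 * d * C0) := ⟨_, rfl⟩
  have hM0 : 0 < M := by rw [hM]; positivity
  obtain ⟨n, δ, hδ, key⟩ := wstar w hw M hM0 ε hε
  refine ⟨n, min 1 (δ * Real.pi / (8 * C0)), δ * Real.pi / (16 * d), by positivity,
    min_le_left _ _, by positivity, fun V a ψ h c T ρ X hT hX hρ hj => ?_⟩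
  obtain ⟨κ, hκ⟩ : ∃ κ, κ = min 1 (δ * Real.pi / (8 * C0)) := ⟨_, rfl⟩
  have hκ0 : 0 < κ := by rw [hκ]; positivity
  rw [← hκ] at hj
  obtain ⟨f, hf⟩ : ∃ f : ℝ → ℂ, f = fun t => ∑' x, X x * ((‖ψ t x‖ ^ 2 : ℝ) : ℂ) := ⟨_, rfl⟩
  have hfm : Measurable f := by
    rw [hf]
    exact tsum_meas X (fun x s => ‖ψ s x‖ ^ 2) (fun x => ((h.cont x).norm.pow 2).measurable)
      (fun s => sum_ok X hX _ (h.norm s).summable)
  have hf1 : ∀ t, ‖f t‖ ≤ 1 := fun t => by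
    rw [hf, ← (h.norm t).tsum_eq]
    exact sum_le X hX _ (h.norm t).summable
  obtain ⟨F, hF⟩ : ∃ F : ℝ → ℂ, F = (Ioi (0 : ℝ)).indicator
    fun s => f (T * s) - ((Phi d ρ s : ℝ) : ℂ) := ⟨_, rfl⟩
  have hFs : ∀ s ∈ Ioi (0 : ℝ), F s = f (T * s) - ((Phi d ρ s : ℝ) : ℂ) := fun s hs => by
    rw [hF, indicator_of_mem hs]
  have hPm := Phi_meas d hd ρ
  have hFm : Measurable F := by
    rw [hF]
    exact ((hfm.comp (measurable_const_mul T)).sub
      (Complex.measurable_ofReal.comp hPm)).indicator measurableSet_Ioi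
  have hFM : ∀ s, ‖F s‖ ≤ M := by
    intro s
    by_cases hs : s ∈ Ioi (0 : ℝ)
    · rw [hFs s hs, hM]
      refine (norm_sub_le _ _).trans (add_le_add (hf1 _) ?_)
      rw [Complex.norm_real, Real.norm_eq_abs]
      exact Phi_bd d hd C0 hC ρ s hρ (le_of_lt hs)
    · rw [hF, indicator_of_notMem hs, norm_zero]
      exact hM0.le
  have hmain := key F hFm hFM (fun j hjn => ?_)
  · have e1 : ∫ s in Ioi (0 : ℝ), ((w s : ℝ) : ℂ) *
        ((∑' x, X x * ((‖ψ (T * s) x‖ ^ 2 : ℝ) : ℂ)) - ((Phi d ρ s : ℝ) : ℂ)) =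
        ∫ s in Ioi (0 : ℝ), ((w s : ℝ) : ℂ) * F s := by
      refine setIntegral_congr_fun measurableSet_Ioi fun s hs => ?_
      rw [hFs s hs, hf]
    rw [e1]
    exact hmain
  -- the Laplace transforms
  obtain ⟨J, hJ⟩ : ∃ J : ℝ, J = (j : ℝ) + 1 := ⟨_, rfl⟩
  have hJ1 : 1 ≤ J := by rw [hJ]; have := Nat.cast_nonneg (α := ℝ) j; linarith
  have hJ0 : 0 < J := by linarith
  have hje := hj j hjn
  rw [← hJ] at hje ⊢
  obtain ⟨η, hη⟩ : ∃ η, η = J / (2 * T) := ⟨_, rfl⟩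
  have hη0 : 0 < η := by rw [hη]; positivity
  rw [← hη] at hje
  have hgc : Continuous (gI d) := g0_cont d hd
  have h3 := asm hd h η hη0 c κ (δ * Real.pi / (16 * d)) C0 hκ0 (by rw [hκ]; exact min_le_left _ _)
    (by positivity) hC X hX (fun E => gI d E / (1 + Dc d E * (ρ / J)))
    (hgc.measurable.div (measurable_const.add ((Dc_meas d hd).mul_const _)))
    (fun E => by
      have hD := Dc_nonneg d hd E
      have hg : 0 ≤ gI d E := g0_nonneg d hd E
      have h1 : 1 ≤ 1 + Dc d E * (ρ / J) := by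
        have : 0 ≤ Dc d E * (ρ / J) := by positivity
        linarith
      exact ⟨div_nonneg hg (by linarith), div_le_self hg h1⟩)
    (fun e he => (hje e he).1) (fun e he => (hje e he).2)
  rw [← Phi_laplace d hd ρ J hρ hJ0] at h3
  -- scaling of the time
  have hsc : ∫ s in Ioi (0 : ℝ), ((Real.exp (-(J * s)) : ℝ) : ℂ) * f (T * s) =
      ((T⁻¹ : ℝ) : ℂ) * ∫ s in Ioi (0 : ℝ), ((Real.exp (-(2 * η) * s) : ℝ) : ℂ) * f s := by
    have e1 := integral_comp_mul_left_Ioi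
      (fun s => ((Real.exp (-(2 * η) * s) : ℝ) : ℂ) * f s) 0 hT
    rw [mul_zero] at e1
    have e2 : ∀ s : ℝ, -(2 * η) * (T * s) = -(J * s) := by
      intro s
      rw [hη]
      field_simp
    simp only [e2] at e1
    rw [e1, Complex.real_smul]
  have hexpi : IntegrableOn (fun s : ℝ => Real.exp (-(J * s))) (Ioi (0 : ℝ)) := by
    have := exp_neg_integrableOn_Ioi 0 hJ0
    simpa only [neg_mul] using this
  have hi1 : IntegrableOn (fun s : ℝ => ((Real.exp (-(J * s)) : ℝ) : ℂ) * f (T * s))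
      (Ioi (0 : ℝ)) := by
    refine Integrable.mono' hexpi ?_ (Eventually.of_forall fun s => ?_)
    · exact (Measurable.mul (by fun_prop) (hfm.comp (measurable_const_mul T))).aestronglyMeasurable
    · rw [norm_mul, Complex.norm_real, Real.norm_of_nonneg (Real.exp_pos _).le]
      exact mul_le_of_le_one_right (Real.exp_pos _).le (hf1 _)
  have hi2 : IntegrableOn (fun s : ℝ => ((Real.exp (-(J * s)) * Phi d ρ s : ℝ) : ℂ))
      (Ioi (0 : ℝ)) := by
    refine Integrable.ofReal ?_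
    refine Integrable.mono' (hexpi.mul_const ((1 / Real.pi) * (4 * d * C0))) ?_ ?_
    · exact (Measurable.mul (by fun_prop) hPm).aestronglyMeasurable
    · refine (ae_restrict_mem measurableSet_Ioi).mono fun s hs => ?_
      change ‖Real.exp (-(J * s)) * Phi d ρ s‖ ≤ _
      rw [norm_mul, Real.norm_of_nonneg (Real.exp_pos _).le]
      exact mul_le_mul_of_nonneg_left (Phi_bd d hd C0 hC ρ s hρ (le_of_lt hs)) (Real.exp_pos _).le
  have hspl : ∫ s in Ioi (0 : ℝ), ((Real.exp (-(J * s)) : ℝ) : ℂ) * F s =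
      (∫ s in Ioi (0 : ℝ), ((Real.exp (-(J * s)) : ℝ) : ℂ) * f (T * s)) -
        ((∫ s in Ioi (0 : ℝ), Real.exp (-(J * s)) * Phi d ρ s : ℝ) : ℂ) := by
    rw [← integral_complex_ofReal, ← integral_sub hi1 hi2]
    refine setIntegral_congr_fun measurableSet_Ioi fun s hs => ?_
    rw [hFs s hs]
    push_cast
    ring
  rw [hspl, hsc]
  obtain ⟨I1, hI1⟩ : ∃ I1 : ℂ, I1 = ∫ s in Ioi (0 : ℝ),
    ((Real.exp (-(2 * η) * s) : ℝ) : ℂ) * f s := ⟨_, rfl⟩
  obtain ⟨I2, hI2⟩ : ∃ I2 : ℝ, I2 = ∫ s in Ioi (0 : ℝ), Real.exp (-(J * s)) * Phi d ρ s :=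
    ⟨_, rfl⟩
  have hI1' : I1 = ∫ s in Ioi (0 : ℝ), ((Real.exp (-(2 * η) * s) : ℝ) : ℂ) *
      ∑' x, X x * ((‖ψ s x‖ ^ 2 : ℝ) : ℂ) := by rw [hI1, hf]
  rw [← hI1, ← hI2]
  rw [← hI1', ← hI2] at h3
  have e3 : ((2 * η : ℝ) : ℂ) * I1 - ((J * I2 : ℝ) : ℂ) =
      (J : ℂ) * (((T⁻¹ : ℝ) : ℂ) * I1 - (I2 : ℂ)) := by
    rw [hη]
    push_cast
    have : (T : ℂ) ≠ 0 := by exact_mod_cast hT.ne'
    field_simp
  rw [e3, norm_mul, Complex.norm_real, Real.norm_of_nonneg hJ0.le] at h3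
  have h4 : ‖((T⁻¹ : ℝ) : ℂ) * I1 - (I2 : ℂ)‖ ≤ J * ‖((T⁻¹ : ℝ) : ℂ) * I1 - (I2 : ℂ)‖ :=
    le_mul_of_one_le_left (norm_nonneg _) hJ1
  refine h4.trans (h3.trans ?_)
  rw [div_le_iff₀ hπ]
  have h5 : κ * (8 * C0) ≤ δ * Real.pi := by
    have : κ ≤ δ * Real.pi / (8 * C0) := by rw [hκ]; exact min_le_right _ _
    rwa [le_div_iff₀ (by positivity)] at this
  have h6 : 8 * (d : ℝ) * (δ * Real.pi / (16 * d)) = δ * Real.pi / 2 := by
    field_simp
    ring
  rw [h6]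
  linarith

end Pool.Agent.H189.W
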