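import Pool.Agent.H189.W.Loc1
import Pool.Agent.H189.U.Res2

/-! Exponentially localised eigenfunctions and the resolvent. -/

set_option autoImplicit false
set_option linter.unusedVariables false
set_option linter.unusedSectionVars false

open scoped BigOperators Topology ENNReal ComplexConjugate
open MeasureTheory Filter Set

namespace Pool.Agent.H189.W

open Pool.Agent.H4R2.LO (Zd)
open Pool.Agent.TH794.QD
open Pool.Agent.TH794.QE
open Pool.Agent.R988
open Pool.Agent.W788.LD.Spec (S symm summ_mul)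

variable {d : ℕ} {ι : Type} {s : Finset ι} {u : ι → Zd d → ℂ} {c : ι → Zd d} {A ℓ : ℝ}

/-- the coefficients of the resolvent -/
theorem coef {V : Zd d → ℝ} {a : Zd d} {e η : ℝ} {g : Zd d → ℂ} (hg : Rs d V a e η g)
    (hη : 0 < η) (w : Zd d → ℂ) (hw : Summable fun x => ‖w x‖ ^ 2) (Ej : ℝ)
    (heig : ∀ x, -S w x + (V x : ℂ) * w x = (Ej : ℂ) * w x) :
    ∑' x, conj (w x) * g x = conj (w a) * ((Ej : ℂ) - ((e : ℂ) + (η : ℂ) * Complex.I))⁻¹ := by
  obtain ⟨s1, s2, s3⟩ := symm w g hw hg.sq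
  have s4 := summ_mul w g hw hg.sq
  have h1 : ∀ x, ((Ej : ℂ) - ((e : ℂ) + (η : ℂ) * Complex.I)) * (conj (w x) * g x) =
      (if x = a then conj (w a) else 0) + conj (w x) * S g x - conj (S w x) * g x := by
    intro x
    have e1 := hg.eq x
    have e2 := congrArg conj (heig x)
    simp only [map_add, map_neg, map_mul, Complex.conj_ofReal] at e2
    have e3 : (if x = a then conj (w a) else 0) = conj (w x) * (if x = a then (1 : ℂ) else 0) := by
      split_ifs with h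
      · rw [h, mul_one]
      · rw [mul_zero]
    rw [e3, ← e1]
    linear_combination (-(g x)) * e2
  have hz : ((Ej : ℂ) - ((e : ℂ) + (η : ℂ) * Complex.I)) ≠ 0 := by
    intro h
    have := congrArg Complex.im h
    simp at this
    exact hη.ne' this
  have h2 : ∑' x, ((Ej : ℂ) - ((e : ℂ) + (η : ℂ) * Complex.I)) * (conj (w x) * g x) =
      conj (w a) := by
    simp only [h1]
    have s5 : Summable fun x : Zd d => (if x = a then conj (w a) else (0 : ℂ)) :=
      (hasSum_ite_eq a (conj (w a))).summable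
    rw [(s5.add s1).tsum_sub s2, s5.tsum_add s1, s3, tsum_ite_eq, add_sub_cancel_right]
  rw [tsum_mul_left] at h2
  rw [← h2]
  field_simp

/-- the weight at the energy `e` -/
noncomputable def wgt (s : Finset ι) (u : ι → Zd d → ℂ) (E : ι → ℝ) (a : Zd d) (e η : ℝ) : ℝ :=
  ∑ j ∈ s, ‖u j a‖ ^ 2 / ((E j - e) ^ 2 + η ^ 2)

theorem inv_nsq (Ej e η : ℝ) (hη : 0 < η) :
    ‖((Ej : ℂ) - ((e : ℂ) + (η : ℂ) * Complex.I))⁻¹‖ ^ 2 = 1 / ((Ej - e) ^ 2 + η ^ 2) := by
  rw [norm_inv, inv_pow, ← Complex.normSq_eq_norm_sq, Complex.normSq_apply, one_div]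
  congr 1
  simp
  ring

/-- **the energy inequality**: for every indicator `χ` -/
theorem ELoc.low (h : ELoc s u c A ℓ) {V : Zd d → ℝ} {a : Zd d} {e η : ℝ} {g : Zd d → ℂ}
    (hg : Rs d V a e η g) (hη : 0 < η) (E : ι → ℝ)
    (heig : ∀ j ∈ s, ∀ x, -S (u j) x + (V x : ℂ) * u j x = (E j : ℂ) * u j x)
    (χ : Zd d → Prop) [DecidablePred χ] :
    ∃ P : Zd d → ℂ, (∀ x, ‖P x‖ ≤ η⁻¹ * ∑ j ∈ s, ‖u j a‖ * ‖u j x‖) ∧
      (Summable fun x => if χ x then 0 else ‖P x‖ * ‖g x‖) ∧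
      wgt s u E a e η ≤ (∑' x, if χ x then ‖g x‖ ^ 2 else 0) +
        2 * ∑' x, if χ x then 0 else ‖P x‖ * ‖g x‖ := by
  classical
  obtain ⟨z, hz⟩ : ∃ z : ℂ, z = (e : ℂ) + (η : ℂ) * Complex.I := ⟨_, rfl⟩
  obtain ⟨k, hk⟩ : ∃ k : ι → ℂ, k = fun j => conj (u j a) * ((E j : ℂ) - z)⁻¹ := ⟨_, rfl⟩
  obtain ⟨P, hP⟩ : ∃ P : Zd d → ℂ, P = fun y => ∑ j ∈ s, k j * u j y := ⟨_, rfl⟩
  obtain ⟨W, hW⟩ : ∃ W : ℝ, W = ∑ j ∈ s, ‖k j‖ ^ 2 := ⟨_, rfl⟩
  have hWw : W = wgt s u E a e η := by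
    rw [hW]
    unfold wgt
    refine Finset.sum_congr rfl fun j _ => ?_
    rw [hk]
    simp only
    rw [norm_mul, mul_pow, RCLike.norm_conj, hz, inv_nsq _ _ _ hη]
    ring
  have hks : ∀ j, ‖k j‖ ≤ η⁻¹ * ‖u j a‖ := by
    intro j
    rw [hk]
    simp only
    rw [norm_mul, RCLike.norm_conj, mul_comm]
    refine mul_le_mul_of_nonneg_right ?_ (norm_nonneg _)
    rw [norm_inv]
    refine inv_anti₀ hη ?_
    have h1 := Complex.abs_im_le_norm ((E j : ℂ) - z)
    have h2 : ((E j : ℂ) - z).im = -η := by rw [hz]; simp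
    rwa [h2, abs_neg, abs_of_pos hη] at h1
  have hco : ∀ j ∈ s, HasSum (fun x => conj (u j x) * g x) (k j) := by
    intro j hj
    have h1 := (summ_mul (u j) g (h.norm j hj).summable hg.sq).hasSum
    rw [coef hg hη (u j) (h.norm j hj).summable (E j) (heig j hj), ← hz] at h1
    rw [hk]
    exact h1
  -- `∑ |P|² = W` and `∑ conj P g = W`
  have hsm : ∀ j ∈ s, ∀ l ∈ s, Summable fun y => conj (u j y) * u l y := fun j hj l hl =>
    summ_mul _ _ (h.norm j hj).summable (h.norm l hl).summable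
  have hPP : ∀ y, ((‖P y‖ ^ 2 : ℝ) : ℂ) =
      ∑ j ∈ s, ∑ l ∈ s, (conj (k j) * k l) * (conj (u j y) * u l y) := by
    intro y
    have h1 : ((‖P y‖ ^ 2 : ℝ) : ℂ) = conj (P y) * P y := by
      rw [mul_comm, Complex.mul_conj, Complex.normSq_eq_norm_sq]
    rw [h1, hP]
    simp only [map_sum, map_mul]
    rw [Finset.sum_mul_sum]
    refine Finset.sum_congr rfl fun j _ => Finset.sum_congr rfl fun l _ => ?_
    ring
  have hsum : HasSum (fun y => ((‖P y‖ ^ 2 : ℝ) : ℂ)) ((W : ℝ) : ℂ) := by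
    simp only [hPP]
    have h1 : HasSum (fun y => ∑ j ∈ s, ∑ l ∈ s, (conj (k j) * k l) * (conj (u j y) * u l y))
        (∑ j ∈ s, ∑ l ∈ s, (conj (k j) * k l) * (if j = l then 1 else 0)) := by
      refine hasSum_sum fun j hj => hasSum_sum fun l hl => HasSum.mul_left _ ?_
      by_cases hjl : j = l
      · subst hjl
        rw [if_pos rfl]
        have h2 : HasSum (fun y => ((‖u j y‖ ^ 2 : ℝ) : ℂ)) ((1 : ℝ) : ℂ) :=
          Complex.hasSum_ofReal.2 (h.norm j hj)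
        rw [Complex.ofReal_one] at h2
        refine h2.congr_fun ?_
        intro y
        rw [mul_comm, Complex.mul_conj, Complex.normSq_eq_norm_sq]
      · rw [if_neg hjl]
        have h2 := (hsm j hj l hl).hasSum
        rwa [h.orth j hj l hl hjl] at h2
    have h2 : ∑ j ∈ s, ∑ l ∈ s, (conj (k j) * k l) * (if j = l then (1 : ℂ) else 0) =
        ((W : ℝ) : ℂ) := by
      rw [hW]
      push_cast
      refine Finset.sum_congr rfl fun j hj => ?_
      rw [Finset.sum_eq_single j]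
      · rw [if_pos rfl, mul_one, mul_comm, Complex.mul_conj, Complex.normSq_eq_norm_sq]
        push_cast
        rfl
      · intro l _ hl
        rw [if_neg (Ne.symm hl), mul_zero]
      · intro hj'
        exact absurd hj hj'
    rwa [h2] at h1
  have hsumR : HasSum (fun y => ‖P y‖ ^ 2) W := Complex.hasSum_ofReal.1 hsum
  have hPg : HasSum (fun y => conj (P y) * g y) ((W : ℝ) : ℂ) := by
    have h1 : HasSum (fun y => ∑ j ∈ s, conj (k j) * (conj (u j y) * g y))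
        (∑ j ∈ s, conj (k j) * k j) := hasSum_sum fun j hj => (hco j hj).mul_left _
    have h2 : ∑ j ∈ s, conj (k j) * k j = ((W : ℝ) : ℂ) := by
      rw [hW]
      push_cast
      refine Finset.sum_congr rfl fun j _ => ?_
      rw [mul_comm, Complex.mul_conj, Complex.normSq_eq_norm_sq]
      push_cast
      rfl
    rw [h2] at h1
    refine h1.congr_fun ?_
    intro y
    rw [hP]
    simp only [map_sum, map_mul]
    rw [Finset.sum_mul]
    exact Finset.sum_congr rfl fun j _ => by ring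
  have hPgR : HasSum (fun y => (conj (P y) * g y).re) W := by
    have h1 := Complex.hasSum_re hPg
    rwa [Complex.ofReal_re] at h1
  -- the pointwise inequality
  have hpt : ∀ x, 2 * (conj (P x) * g x).re ≤ ‖P x‖ ^ 2 + ((if χ x then ‖g x‖ ^ 2 else 0) +
      2 * (if χ x then 0 else ‖P x‖ * ‖g x‖)) := by
    intro x
    have h1 : (conj (P x) * g x).re ≤ ‖P x‖ * ‖g x‖ := by
      refine (Complex.re_le_norm _).trans (le_of_eq ?_)
      rw [norm_mul, RCLike.norm_conj]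
    split_ifs
    · nlinarith [sq_nonneg (‖P x‖ - ‖g x‖)]
    · nlinarith [sq_nonneg ‖P x‖]
  have hsPg : Summable fun x => ‖P x‖ * ‖g x‖ := by
    refine Summable.of_nonneg_of_le (fun x => by positivity) (fun x => ?_)
      (hsumR.summable.add hg.sq)
    nlinarith [sq_nonneg (‖P x‖ - ‖g x‖), sq_nonneg ‖P x‖, sq_nonneg ‖g x‖]
  have s1 : Summable fun x => (if χ x then ‖g x‖ ^ 2 else 0) := by
    refine Summable.of_nonneg_of_le (fun x => by split_ifs <;> positivity) (fun x => ?_) hg.sq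
    split_ifs
    · exact le_rfl
    · positivity
  have s2 : Summable fun x => (if χ x then 0 else ‖P x‖ * ‖g x‖) := by
    refine Summable.of_nonneg_of_le (fun x => by split_ifs <;> positivity) (fun x => ?_) hsPg
    split_ifs
    · positivity
    · exact le_rfl
  refine ⟨P, fun x => ?_, s2, ?_⟩
  · rw [hP, Finset.mul_sum]
    refine (norm_sum_le _ _).trans (Finset.sum_le_sum fun j _ => ?_)
    rw [norm_mul, ← mul_assoc]
    exact mul_le_mul_of_nonneg_right (hks j) (norm_nonneg _)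
  · have h1 := (hPgR.summable.mul_left 2).tsum_le_tsum hpt
      (hsumR.summable.add (s1.add (s2.mul_left 2)))
    rw [tsum_mul_left, hPgR.tsum_eq, hsumR.summable.tsum_add (s1.add (s2.mul_left 2)),
      s1.tsum_add (s2.mul_left 2), hsumR.tsum_eq, tsum_mul_left] at h1
    rw [← hWw]
    linarith

/-- without cut-off -/
theorem ELoc.low_all (h : ELoc s u c A ℓ) {V : Zd d → ℝ} {a : Zd d} {e η : ℝ} {g : Zd d → ℂ}
    (hg : Rs d V a e η g) (hη : 0 < η) (E : ι → ℝ)
    (heig : ∀ j ∈ s, ∀ x, -S (u j) x + (V x : ℂ) * u j x = (E j : ℂ) * u j x) :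
    wgt s u E a e η ≤ ∑' x, ‖g x‖ ^ 2 := by
  obtain ⟨P, -, -, h1⟩ := h.low hg hη E heig (fun _ => True)
  simpa using h1

/-- with a ball -/
theorem ELoc.low_ball (hd : 1 ≤ d) (h : ELoc s u c A ℓ) (hA : 1 ≤ A) (hℓ : 1 ≤ ℓ)
    {V : Zd d → ℝ} {a : Zd d} {e η : ℝ}
    {g : Zd d → ℂ} (hg : Rs d V a e η g) (hη : 0 < η) (E : ι → ℝ)
    (heig : ∀ j ∈ s, ∀ x, -S (u j) x + (V x : ℂ) * u j x = (E j : ℂ) * u j x) (R : ℝ) :
    wgt s u E a e η ≤ (∑' x, if ‖x - a‖ ≤ R then ‖g x‖ ^ 2 else 0) +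
      8 * A ^ 4 * (2 * (1 + 4 * d * ℓ)) ^ (3 * d) * Real.exp (-(R / (4 * ℓ))) * (η⁻¹) ^ 2 := by
  have hd1 : (1 : ℝ) ≤ d := by exact_mod_cast hd
  have hℓ0 : 0 < ℓ := by linarith
  have hηi : 0 < η⁻¹ := inv_pos.2 hη
  obtain ⟨P, hP, hs2, h1⟩ := h.low hg hη E heig (fun x => ‖x - a‖ ≤ R)
  refine h1.trans (add_le_add_right ?_ _)
  obtain ⟨Z, hZ⟩ : ∃ Z : ℝ, Z = 4 * A ^ 2 * (2 * (1 + 2 * d * ℓ)) ^ (2 * d) := ⟨_, rfl⟩
  have hZ0 : 0 ≤ Z := by rw [hZ]; positivity
  have hcen := h.centres hd hA hℓ a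
  rw [← hZ] at hcen
  obtain ⟨t1, t2⟩ := expa hd (1 / (4 * ℓ)) (by positivity) a
  have hgn : ∀ x, ‖g x‖ ≤ η⁻¹ := by
    intro x
    have h2 := Pool.Agent.H189.U.rsU_norm hg hη
    have h3 := hg.sq.le_tsum x fun y _ => by positivity
    exact (pow_le_pow_iff_left₀ (norm_nonneg _) hηi.le two_ne_zero).1 (h3.trans h2)
  have hpt : ∀ x, (if ‖x - a‖ ≤ R then 0 else ‖P x‖ * ‖g x‖) ≤
      (η⁻¹) ^ 2 * (A ^ 2 * Z * Real.exp (-(R / (4 * ℓ)))) *
        Real.exp (-(1 / (4 * ℓ) * ‖x - a‖)) := by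
    intro x
    split_ifs with hx
    · positivity
    · rw [not_le] at hx
      have h2 : ∑ j ∈ s, ‖u j a‖ * ‖u j x‖ ≤ A ^ 2 * Real.exp (-(‖x - a‖ / (2 * ℓ))) * Z := by
        have h3 : ∀ j ∈ s, ‖u j a‖ * ‖u j x‖ ≤
            A ^ 2 * Real.exp (-(‖x - a‖ / (2 * ℓ))) * Real.exp (-(‖a - c j‖ / (2 * ℓ))) := by
          intro j hj
          have h4 := h.decay j hj a
          have h5 := h.decay j hj x
          calc ‖u j a‖ * ‖u j x‖ ≤ (A * Real.exp (-(‖a - c j‖ / ℓ))) *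
                (A * Real.exp (-(‖x - c j‖ / ℓ))) :=
                mul_le_mul h4 h5 (norm_nonneg _) (by positivity)
            _ = A ^ 2 * Real.exp (-(‖a - c j‖ / ℓ) + -(‖x - c j‖ / ℓ)) := by
                rw [Real.exp_add]
                ring
            _ ≤ A ^ 2 * Real.exp (-(‖x - a‖ / (2 * ℓ)) + -(‖a - c j‖ / (2 * ℓ))) := by
                refine mul_le_mul_of_nonneg_left (Real.exp_le_exp.2 ?_) (by positivity)
                have h6 : ‖x - a‖ ≤ ‖x - c j‖ + ‖a - c j‖ := by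
                  have := norm_sub_le (x - c j) (a - c j)
                  rwa [sub_sub_sub_cancel_right] at this
                have h7 : ‖x - a‖ / (2 * ℓ) + ‖a - c j‖ / (2 * ℓ) ≤
                    ‖a - c j‖ / ℓ + ‖x - c j‖ / ℓ := by
                  rw [← add_div, ← add_div, div_le_div_iff₀ (by positivity) hℓ0]
                  nlinarith [norm_nonneg (x - c j), norm_nonneg (a - c j)]
                linarith
            _ = _ := by
                rw [Real.exp_add]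
                ring
        refine (Finset.sum_le_sum h3).trans ?_
        rw [← Finset.mul_sum]
        exact mul_le_mul_of_nonneg_left hcen (by positivity)
      have h3 : Real.exp (-(‖x - a‖ / (2 * ℓ))) ≤
          Real.exp (-(R / (4 * ℓ))) * Real.exp (-(1 / (4 * ℓ) * ‖x - a‖)) := by
        rw [← Real.exp_add]
        refine Real.exp_le_exp.2 ?_
        have h4 : R / (4 * ℓ) ≤ ‖x - a‖ / (4 * ℓ) := by gcongr
        have h5 : 1 / (4 * ℓ) * ‖x - a‖ = ‖x - a‖ / (4 * ℓ) := by ring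
        have h6 : ‖x - a‖ / (2 * ℓ) = ‖x - a‖ / (4 * ℓ) + ‖x - a‖ / (4 * ℓ) := by
          field_simp
          ring
        rw [h5, h6]
        linarith
      calc ‖P x‖ * ‖g x‖ ≤ (η⁻¹ * (A ^ 2 * Real.exp (-(‖x - a‖ / (2 * ℓ))) * Z)) * η⁻¹ := by
            refine mul_le_mul ((hP x).trans ?_) (hgn x) (norm_nonneg _) (by positivity)
            exact mul_le_mul_of_nonneg_left h2 hηi.le
        _ ≤ (η⁻¹ * (A ^ 2 * (Real.exp (-(R / (4 * ℓ))) *
            Real.exp (-(1 / (4 * ℓ) * ‖x - a‖))) * Z)) * η⁻¹ := by gcongr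
        _ = _ := by ring
  have h2 := hs2.tsum_le_tsum hpt (t1.mul_left _)
  rw [tsum_mul_left] at h2
  have e1 : (2 * (1 + d / (1 / (4 * ℓ)))) = 2 * (1 + 4 * d * ℓ) := by
    field_simp
  rw [e1] at t2
  have h3 : (2 * (1 + 2 * d * ℓ)) ^ (2 * d) ≤ (2 * (1 + 4 * d * ℓ)) ^ (2 * d) := by
    have : (0 : ℝ) ≤ d * ℓ := by positivity
    gcongr ?_ ^ (2 * d)
    linarith
  calc 2 * ∑' x, (if ‖x - a‖ ≤ R then 0 else ‖P x‖ * ‖g x‖) ≤
      2 * ((η⁻¹) ^ 2 * (A ^ 2 * Z * Real.exp (-(R / (4 * ℓ)))) *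
        ∑' x, Real.exp (-(1 / (4 * ℓ) * ‖x - a‖))) := by gcongr
    _ ≤ 2 * ((η⁻¹) ^ 2 * (A ^ 2 * (4 * A ^ 2 * (2 * (1 + 4 * d * ℓ)) ^ (2 * d)) *
        Real.exp (-(R / (4 * ℓ)))) * (2 * (1 + 4 * d * ℓ)) ^ d) := by
        rw [hZ]
        gcongr
    _ = _ := by
        have : (2 * (1 + 4 * d * ℓ)) ^ (3 * d) =
            (2 * (1 + 4 * d * ℓ)) ^ (2 * d) * (2 * (1 + 4 * d * ℓ)) ^ d := by
          rw [← pow_add]
          congr 1
          ring
        rw [this]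
        ring

end Pool.Agent.H189.W
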