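import Mathlib

/-! Approximation of integrable functions on the half line by exponential sums. -/

set_option autoImplicit false
set_option linter.unusedVariables false

open scoped BigOperators Topology ENNReal
open MeasureTheory Filter Set

namespace Pool.Agent.H189.W

theorem expdense (w : ℝ → ℝ) (hw : IntegrableOn w (Ioi (0 : ℝ))) (ε : ℝ) (hε : 0 < ε) :
    ∃ P : Polynomial ℝ, IntegrableOn (fun s => |w s - Real.exp (-s) * P.eval (Real.exp (-s))|)
      (Ioi (0 : ℝ)) ∧
      ∫ s in Ioi (0 : ℝ), |w s - Real.exp (-s) * P.eval (Real.exp (-s))| ≤ ε := by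
  -- a compactly supported approximation
  have hi : Integrable ((Ioi (0 : ℝ)).indicator w) := (integrable_indicator_iff measurableSet_Ioi).2 hw
  obtain ⟨g, hgc, hg1, hg2, hg3⟩ := hi.exists_hasCompactSupport_integral_sub_le (half_pos hε)
  obtain ⟨R, hR⟩ : ∃ R : ℝ, ∀ s, R < |s| → g s = 0 := by
    obtain ⟨R, hR⟩ := hgc.isCompact.isBounded.subset_closedBall 0
    refine ⟨R, fun s hs => ?_⟩
    by_contra hne
    have h1 : s ∈ tsupport g := subset_tsupport g hne
    have h2 := hR h1
    rw [mem_closedBall_zero_iff, Real.norm_eq_abs] at h2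
    linarith
  obtain ⟨G, hG⟩ : ∃ G : ℝ → ℝ, G = fun y => g (-Real.log y) * y⁻¹ := ⟨_, rfl⟩
  have hGc : ContinuousOn G (Icc (0 : ℝ) 1) := by
    intro y hy
    rcases hy.1.eq_or_lt with h0 | h0
    · rw [← h0]
      have h1 : ∀ᶠ z in 𝓝[Icc (0 : ℝ) 1] 0, G z = 0 := by
        have h2 : ∀ᶠ z in 𝓝[Icc (0 : ℝ) 1] 0, z < Real.exp (-(|R| + 1)) :=
          (eventually_lt_nhds (Real.exp_pos _)).filter_mono nhdsWithin_le_nhds
        filter_upwards [h2, self_mem_nhdsWithin] with z hz hz1
        rw [hG]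
        simp only
        rcases hz1.1.eq_or_lt with h3 | h3
        · rw [← h3]
          simp
        · have h4 : Real.log z < -(|R| + 1) := by
            rw [← Real.log_exp (-(|R| + 1))]
            exact Real.log_lt_log h3 hz
          rw [hR, zero_mul]
          have h5 : |R| + 1 < -Real.log z := by linarith
          have h6 := le_abs_self (-Real.log z)
          have h7 := le_abs_self R
          linarith
      have h2 : G 0 = 0 := by
        rw [hG]
        simp
      have h3 : Tendsto G (𝓝[Icc (0 : ℝ) 1] 0) (𝓝 0) :=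
        (tendsto_const_nhds (x := (0 : ℝ))).congr' (h1.mono fun z hz => hz.symm)
      unfold ContinuousWithinAt
      rw [h2]
      exact h3
    · refine ContinuousAt.continuousWithinAt ?_
      rw [hG]
      have h1 : ContinuousAt (fun y => g (-Real.log y)) y :=
        (hg2.continuousAt).comp (Real.continuousAt_log h0.ne').neg
      exact h1.mul (continuousAt_inv₀ h0.ne')
  obtain ⟨P, hP⟩ := exists_polynomial_near_of_continuousOn 0 1 G hGc (ε / 2) (half_pos hε)
  refine ⟨P, ?_⟩
  have hPc : Continuous fun s : ℝ => Real.exp (-s) * P.eval (Real.exp (-s)) := by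
    have := P.continuous
    fun_prop
  have key : ∀ s ∈ Ioi (0 : ℝ), |g s - Real.exp (-s) * P.eval (Real.exp (-s))| ≤
      ε / 2 * Real.exp (-1 * s) := by
    intro s hs
    have hs' : (0 : ℝ) < s := hs
    have h1 := hP (Real.exp (-s)) ⟨(Real.exp_pos _).le, by
      rw [Real.exp_le_one_iff]
      linarith⟩
    rw [hG] at h1
    simp only [Real.log_exp, neg_neg] at h1
    have h2 : g s - Real.exp (-s) * P.eval (Real.exp (-s)) =
        -(Real.exp (-s) * (P.eval (Real.exp (-s)) - g s * (Real.exp (-s))⁻¹)) := by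
      have := (Real.exp_pos (-s)).ne'
      field_simp
      ring
    rw [h2, abs_neg, abs_mul, abs_of_pos (Real.exp_pos _), neg_one_mul, mul_comm (ε / 2)]
    exact mul_le_mul_of_nonneg_left h1.le (Real.exp_pos _).le
  have hexp : IntegrableOn (fun s => ε / 2 * Real.exp (-1 * s)) (Ioi (0 : ℝ)) :=
    (exp_neg_integrableOn_Ioi 0 one_pos).const_mul _
  have hgint : IntegrableOn (fun s => |g s - Real.exp (-s) * P.eval (Real.exp (-s))|)
      (Ioi (0 : ℝ)) := by
    refine Integrable.mono' hexp (hg2.sub hPc).abs.aestronglyMeasurable ?_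
    refine (ae_restrict_mem measurableSet_Ioi).mono fun s hs => ?_
    rw [Real.norm_of_nonneg (abs_nonneg _)]
    exact key s hs
  have hwg : IntegrableOn (fun s => |w s - g s|) (Ioi (0 : ℝ)) :=
    (hw.sub hg3.integrableOn).abs
  have hle : ∀ s, |w s - Real.exp (-s) * P.eval (Real.exp (-s))| ≤
      |w s - g s| + |g s - Real.exp (-s) * P.eval (Real.exp (-s))| := fun s => by
    have := abs_add_le (w s - g s) (g s - Real.exp (-s) * P.eval (Real.exp (-s)))
    rwa [sub_add_sub_cancel] at this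
  have hint : IntegrableOn (fun s => |w s - Real.exp (-s) * P.eval (Real.exp (-s))|)
      (Ioi (0 : ℝ)) := by
    refine Integrable.mono' (hwg.add hgint)
      (hw.aestronglyMeasurable.sub hPc.aestronglyMeasurable).norm
      (Eventually.of_forall fun s => ?_)
    rw [Real.norm_of_nonneg (abs_nonneg _)]
    exact hle s
  refine ⟨hint, ?_⟩
  calc ∫ s in Ioi (0 : ℝ), |w s - Real.exp (-s) * P.eval (Real.exp (-s))| ≤
      ∫ s in Ioi (0 : ℝ), (|w s - g s| + |g s - Real.exp (-s) * P.eval (Real.exp (-s))|) :=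
        integral_mono hint (hwg.add hgint) hle
    _ = (∫ s in Ioi (0 : ℝ), |w s - g s|) +
        ∫ s in Ioi (0 : ℝ), |g s - Real.exp (-s) * P.eval (Real.exp (-s))| :=
        integral_add hwg hgint
    _ ≤ ε / 2 + ε / 2 := by
        refine add_le_add ?_ ?_
        · have h1 : ∫ s in Ioi (0 : ℝ), |w s - g s| =
              ∫ s in Ioi (0 : ℝ), ‖(Ioi (0 : ℝ)).indicator w s - g s‖ := by
            refine setIntegral_congr_fun measurableSet_Ioi fun s hs => ?_
            rw [indicator_of_mem hs, Real.norm_eq_abs]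
          rw [h1]
          refine le_trans ?_ hg1
          exact setIntegral_le_integral (hi.sub hg3).norm
            (Eventually.of_forall fun s => norm_nonneg _)
        · calc ∫ s in Ioi (0 : ℝ), |g s - Real.exp (-s) * P.eval (Real.exp (-s))| ≤
              ∫ s in Ioi (0 : ℝ), ε / 2 * Real.exp (-1 * s) :=
                setIntegral_mono_on hgint hexp measurableSet_Ioi key
            _ = ε / 2 := by
              rw [integral_const_mul, integral_exp_mul_Ioi (by norm_num) 0, mul_zero,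
                Real.exp_zero]
              ring
    _ = ε := by ring

/-- **weak convergence from the Laplace transforms** -/
theorem wstar (w : ℝ → ℝ) (hw : IntegrableOn w (Ioi (0 : ℝ))) (M : ℝ) (hM : 0 < M) (ε : ℝ)
    (hε : 0 < ε) :
    ∃ (n : ℕ) (δ : ℝ), 0 < δ ∧ ∀ F : ℝ → ℂ, Measurable F → (∀ s, ‖F s‖ ≤ M) →
      (∀ j : ℕ, j ≤ n → ‖∫ s in Ioi (0 : ℝ), ((Real.exp (-((j + 1 : ℝ) * s)) : ℝ) : ℂ) * F s‖ ≤ δ) →
      ‖∫ s in Ioi (0 : ℝ), ((w s : ℝ) : ℂ) * F s‖ ≤ ε := by
  obtain ⟨P, hPi, hP⟩ := expdense w hw (ε / (2 * M)) (by positivity)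
  obtain ⟨A, hA⟩ : ∃ A : ℝ, A = ∑ j ∈ Finset.range (P.natDegree + 1), |P.coeff j| := ⟨_, rfl⟩
  have hA0 : 0 ≤ A := by rw [hA]; positivity
  refine ⟨P.natDegree, ε / 2 / (A + 1), by positivity, fun F hFm hF2 hj => ?_⟩
  have hexpi : ∀ j : ℕ, IntegrableOn (fun s : ℝ => Real.exp (-((j + 1 : ℝ) * s)))
      (Ioi (0 : ℝ)) := by
    intro j
    have := exp_neg_integrableOn_Ioi 0 (b := (j + 1 : ℝ)) (by positivity)
    simpa only [neg_mul] using this
  have hji : ∀ j : ℕ, IntegrableOn (fun s : ℝ => ((Real.exp (-((j + 1 : ℝ) * s)) : ℝ) : ℂ) * F s)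
      (Ioi (0 : ℝ)) := by
    intro j
    refine Integrable.mono' ((hexpi j).const_mul M) ?_ (Eventually.of_forall fun s => ?_)
    · exact ((by fun_prop : Measurable fun s : ℝ =>
        ((Real.exp (-((j + 1 : ℝ) * s)) : ℝ) : ℂ)).mul hFm).aestronglyMeasurable
    · rw [norm_mul, Complex.norm_real, Real.norm_of_nonneg (Real.exp_pos _).le, mul_comm]
      exact mul_le_mul_of_nonneg_right (hF2 s) (Real.exp_pos _).le
  have hsplit : ∀ s, ((w s : ℝ) : ℂ) * F s =
      ((w s - Real.exp (-s) * P.eval (Real.exp (-s)) : ℝ) : ℂ) * F s +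
      ∑ j ∈ Finset.range (P.natDegree + 1), (P.coeff j : ℂ) *
        (((Real.exp (-((j + 1 : ℝ) * s)) : ℝ) : ℂ) * F s) := by
    intro s
    have h1 : ((Real.exp (-s) * P.eval (Real.exp (-s)) : ℝ) : ℂ) =
        ∑ j ∈ Finset.range (P.natDegree + 1), (P.coeff j : ℂ) *
          ((Real.exp (-((j + 1 : ℝ) * s)) : ℝ) : ℂ) := by
      rw [Polynomial.eval_eq_sum_range, Finset.mul_sum]
      push_cast
      refine Finset.sum_congr rfl fun j _ => ?_
      have h2 : Complex.exp (-((j + 1 : ℂ) * s)) = Complex.exp (-s) * Complex.exp (-s) ^ j := by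
        rw [← Complex.exp_nat_mul, ← Complex.exp_add]
        congr 1
        ring
      rw [h2]
      ring
    have h3 : ∑ j ∈ Finset.range (P.natDegree + 1), (P.coeff j : ℂ) *
        (((Real.exp (-((j + 1 : ℝ) * s)) : ℝ) : ℂ) * F s) =
        ((Real.exp (-s) * P.eval (Real.exp (-s)) : ℝ) : ℂ) * F s := by
      rw [h1, Finset.sum_mul]
      exact Finset.sum_congr rfl fun j _ => by ring
    rw [h3, ← add_mul]
    congr 1
    push_cast
    ring
  have hPc : Continuous fun s : ℝ => Real.exp (-s) * P.eval (Real.exp (-s)) := by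
    have := P.continuous
    fun_prop
  have hdi : IntegrableOn (fun s => ((w s - Real.exp (-s) * P.eval (Real.exp (-s)) : ℝ) : ℂ) * F s)
      (Ioi (0 : ℝ)) := by
    refine Integrable.mono' (hPi.const_mul M) ?_ (Eventually.of_forall fun s => ?_)
    · exact (Complex.continuous_ofReal.comp_aestronglyMeasurable
        (hw.aestronglyMeasurable.sub hPc.aestronglyMeasurable)).mul hFm.aestronglyMeasurable
    · rw [norm_mul, Complex.norm_real, Real.norm_eq_abs, mul_comm]
      exact mul_le_mul_of_nonneg_right (hF2 s) (abs_nonneg _)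
  have hsi : IntegrableOn (fun s => ∑ j ∈ Finset.range (P.natDegree + 1), (P.coeff j : ℂ) *
        (((Real.exp (-((j + 1 : ℝ) * s)) : ℝ) : ℂ) * F s)) (Ioi (0 : ℝ)) :=
    integrable_finsetSum _ fun j _ => (hji j).const_mul _
  simp only [hsplit]
  rw [integral_add hdi hsi, integral_finsetSum _ fun j _ => (hji j).const_mul _]
  simp only [integral_const_mul]
  refine (norm_add_le _ _).trans ?_
  have h1 : ‖∫ s in Ioi (0 : ℝ), ((w s - Real.exp (-s) * P.eval (Real.exp (-s)) : ℝ) : ℂ) * F s‖ ≤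
      ε / 2 := by
    calc ‖∫ s in Ioi (0 : ℝ), ((w s - Real.exp (-s) * P.eval (Real.exp (-s)) : ℝ) : ℂ) * F s‖ ≤
        ∫ s in Ioi (0 : ℝ), |w s - Real.exp (-s) * P.eval (Real.exp (-s))| * M := by
          refine norm_integral_le_of_norm_le (hPi.mul_const M) (Eventually.of_forall fun s => ?_)
          rw [norm_mul, Complex.norm_real, Real.norm_eq_abs]
          exact mul_le_mul_of_nonneg_left (hF2 s) (abs_nonneg _)
      _ = (∫ s in Ioi (0 : ℝ), |w s - Real.exp (-s) * P.eval (Real.exp (-s))|) * M :=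
          integral_mul_const _ _
      _ ≤ ε / (2 * M) * M := by gcongr
      _ = ε / 2 := by field_simp
  have h2 : ‖∑ j ∈ Finset.range (P.natDegree + 1), (P.coeff j : ℂ) *
      ∫ s in Ioi (0 : ℝ), ((Real.exp (-((j + 1 : ℝ) * s)) : ℝ) : ℂ) * F s‖ ≤
      A * (ε / 2 / (A + 1)) := by
    refine (norm_sum_le _ _).trans ?_
    rw [hA, Finset.sum_mul]
    refine Finset.sum_le_sum fun j hjm => ?_
    rw [norm_mul, Complex.norm_real, Real.norm_eq_abs, ← hA]
    exact mul_le_mul_of_nonneg_left (hj j (by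
      have := Finset.mem_range.1 hjm
      omega)) (abs_nonneg _)
  have h3 : A * (ε / 2 / (A + 1)) ≤ ε / 2 := by
    rw [mul_div_assoc', div_le_iff₀ (by positivity)]
    nlinarith
  linarith

end Pool.Agent.H189.W
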