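import Pool.Agent.H189.W.Heat

/-! Exponentially localised orthonormal families: sums over the lattice and over the centres. -/

set_option autoImplicit false
set_option linter.unusedVariables false
set_option linter.unusedSectionVars false

open scoped BigOperators Topology ENNReal ComplexConjugate
open MeasureTheory Filter Set

namespace Pool.Agent.H189.W

open Pool.Agent.H4R2.LO (Zd)
open Pool.Agent.TH794.QD
open Pool.Agent.TH794.QE
open Pool.Agent.R988

variable {d : ℕ}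

theorem exp1 (t : ℝ) (ht : 0 < t) (n : ℕ) :
    ∑ k ∈ Finset.Icc (-(n : ℤ)) n, Real.exp (-(t * |(k : ℝ)|)) ≤ 2 * (1 + 1 / t) := by
  have h1 : ∑ k ∈ Finset.Icc (-(n : ℤ)) n, Real.exp (-(t * |(k : ℝ)|)) =
      ∑ j ∈ Finset.range (n + 1), ∑ k ∈ (Finset.Icc (-(n : ℤ)) n).filter (fun k => k.natAbs = j),
        Real.exp (-(t * |(k : ℝ)|)) := by
    rw [Finset.sum_fiberwise_of_maps_to]
    intro k hk
    rw [Finset.mem_Icc] at hk
    rw [Finset.mem_range]
    omega
  have h2 : ∀ j ∈ Finset.range (n + 1),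
      ∑ k ∈ (Finset.Icc (-(n : ℤ)) n).filter (fun k => k.natAbs = j),
        Real.exp (-(t * |(k : ℝ)|)) ≤ 2 * Real.exp (-t) ^ j := by
    intro j _
    have h3 : ∀ k ∈ (Finset.Icc (-(n : ℤ)) n).filter (fun k => k.natAbs = j),
        Real.exp (-(t * |(k : ℝ)|)) ≤ Real.exp (-t) ^ j := by
      intro k hk
      have h4 := (Finset.mem_filter.1 hk).2
      rw [← Real.exp_nat_mul]
      refine le_of_eq ?_
      congr 1
      have h5 : |(k : ℝ)| = j := by
        rw [← h4, ← Int.cast_abs, Int.abs_eq_natAbs]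
        simp
      rw [h5]
      ring
    refine (Finset.sum_le_card_nsmul _ _ _ h3).trans ?_
    rw [nsmul_eq_mul]
    refine mul_le_mul_of_nonneg_right ?_ (by positivity)
    have h6 : ((Finset.Icc (-(n : ℤ)) n).filter (fun k => k.natAbs = j)).card ≤
        ({(j : ℤ), -(j : ℤ)} : Finset ℤ).card := by
      apply Finset.card_le_card
      intro k hk
      have h4 := (Finset.mem_filter.1 hk).2
      rw [Finset.mem_insert, Finset.mem_singleton]
      omega
    have h7 : ({(j : ℤ), -(j : ℤ)} : Finset ℤ).card ≤ 2 := Finset.card_le_two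
    exact_mod_cast h6.trans h7
  rw [h1]
  refine (Finset.sum_le_sum h2).trans ?_
  rw [← Finset.mul_sum]
  refine mul_le_mul_of_nonneg_left ?_ (by norm_num)
  have h8 : Real.exp (-t) < 1 := by
    rw [Real.exp_lt_one_iff]
    linarith
  have h9 : ∑ j ∈ Finset.range (n + 1), Real.exp (-t) ^ j ≤ (1 - Real.exp (-t))⁻¹ :=
    ((summable_geometric_of_lt_one (Real.exp_pos _).le h8).sum_le_tsum _
      fun j _ => by positivity).trans
      (tsum_geometric_of_lt_one (Real.exp_pos _).le h8).le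
  refine h9.trans ?_
  have h10 : t / (1 + t) ≤ 1 - Real.exp (-t) := by
    have h11 := Real.add_one_le_exp t
    have h12 : Real.exp (-t) ≤ 1 / (1 + t) := by
      rw [Real.exp_neg, ← one_div]
      apply one_div_le_one_div_of_le (by positivity)
      linarith
    have h13 : t / (1 + t) = 1 - 1 / (1 + t) := by
      field_simp
      ring
    linarith
  calc (1 - Real.exp (-t))⁻¹ ≤ (t / (1 + t))⁻¹ := inv_anti₀ (by positivity) h10
    _ = 1 + 1 / t := by
        rw [inv_div]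
        field_simp
        ring

/-- the exponential sum over the lattice -/
theorem expd (hd : 1 ≤ d) (t : ℝ) (ht : 0 < t) :
    (Summable fun x : Zd d => Real.exp (-(t * ‖x‖))) ∧
      ∑' x : Zd d, Real.exp (-(t * ‖x‖)) ≤ (2 * (1 + d / t)) ^ d := by
  have hd1 : (1 : ℝ) ≤ d := by exact_mod_cast hd
  have key : ∀ F : Finset (Zd d), ∑ x ∈ F, Real.exp (-(t * ‖x‖)) ≤ (2 * (1 + d / t)) ^ d := by
    intro F
    obtain ⟨n, hn⟩ : ∃ n : ℕ, n = ∑ x ∈ F, ∑ i, (x i).natAbs := ⟨_, rfl⟩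
    have hF : ∀ x ∈ F, ∀ i, (x i).natAbs ≤ n := by
      intro x hx i
      rw [hn]
      calc (x i).natAbs ≤ ∑ i, (x i).natAbs :=
            Finset.single_le_sum (f := fun i => (x i).natAbs) (fun _ _ => Nat.zero_le _)
              (Finset.mem_univ i)
        _ ≤ ∑ x ∈ F, ∑ i, (x i).natAbs :=
            Finset.single_le_sum (f := fun x : Zd d => ∑ i, (x i).natAbs)
              (fun _ _ => Nat.zero_le _) hx
    have hsub : F ⊆ Fintype.piFinset fun _ : Fin d => Finset.Icc (-(n : ℤ)) n := by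
      intro x hx
      rw [Fintype.mem_piFinset]
      intro i
      have := hF x hx i
      rw [Finset.mem_Icc]
      omega
    have hpt : ∀ x : Zd d, Real.exp (-(t * ‖x‖)) ≤ ∏ i, Real.exp (-(t / d * |((x i : ℤ) : ℝ)|)) := by
      intro x
      rw [← Real.exp_sum]
      refine Real.exp_le_exp.2 ?_
      rw [Finset.sum_neg_distrib, neg_le_neg_iff, ← Finset.mul_sum]
      have h1 : ∑ i : Fin d, |((x i : ℤ) : ℝ)| ≤ d * ‖x‖ := by
        calc ∑ i : Fin d, |((x i : ℤ) : ℝ)| ≤ ∑ _i : Fin d, ‖x‖ := by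
              refine Finset.sum_le_sum fun i _ => ?_
              have h2 := norm_le_pi_norm x i
              rwa [Int.norm_eq_abs] at h2
          _ = d * ‖x‖ := by
              rw [Finset.sum_const, Finset.card_univ, Fintype.card_fin, nsmul_eq_mul]
      calc t / d * ∑ i : Fin d, |((x i : ℤ) : ℝ)| ≤ t / d * (d * ‖x‖) := by gcongr
        _ = t * ‖x‖ := by field_simp
    calc ∑ x ∈ F, Real.exp (-(t * ‖x‖)) ≤
        ∑ x ∈ F, ∏ i, Real.exp (-(t / d * |((x i : ℤ) : ℝ)|)) :=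
          Finset.sum_le_sum fun x _ => hpt x
      _ ≤ ∑ x ∈ Fintype.piFinset fun _ : Fin d => Finset.Icc (-(n : ℤ)) n,
          ∏ i, Real.exp (-(t / d * |((x i : ℤ) : ℝ)|)) :=
          Finset.sum_le_sum_of_subset_of_nonneg hsub fun x _ _ => by positivity
      _ = ∏ _i : Fin d, ∑ k ∈ Finset.Icc (-(n : ℤ)) n, Real.exp (-(t / d * |(k : ℝ)|)) :=
          (Finset.prod_univ_sum (fun _ : Fin d => Finset.Icc (-(n : ℤ)) n)
            (fun _ k => Real.exp (-(t / d * |(k : ℝ)|)))).symm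
      _ ≤ ∏ _i : Fin d, (2 * (1 + d / t)) := by
          refine Finset.prod_le_prod (fun i _ => by positivity) fun i _ => ?_
          have h1 := exp1 (t / d) (by positivity) n
          rwa [one_div_div] at h1
      _ = (2 * (1 + d / t)) ^ d := by
          rw [Finset.prod_const, Finset.card_univ, Fintype.card_fin]
  have hs := summable_of_sum_le (fun x : Zd d => (Real.exp_pos (-(t * ‖x‖))).le) key
  exact ⟨hs, hs.tsum_le_of_sum_le key⟩

theorem expa (hd : 1 ≤ d) (t : ℝ) (ht : 0 < t) (a : Zd d) :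
    (Summable fun x : Zd d => Real.exp (-(t * ‖x - a‖))) ∧
      ∑' x : Zd d, Real.exp (-(t * ‖x - a‖)) ≤ (2 * (1 + d / t)) ^ d := by
  obtain ⟨h1, h2⟩ := expd hd t ht
  refine ⟨(Equiv.subRight a).summable_iff.2 h1, ?_⟩
  rw [← (Equiv.subRight a).tsum_eq fun x : Zd d => Real.exp (-(t * ‖x‖))] at h2
  exact h2

/-- a family of orthonormal functions with exponential decay -/
structure ELoc {ι : Type} (s : Finset ι) (u : ι → Zd d → ℂ) (c : ι → Zd d) (A ℓ : ℝ) : Prop where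
  norm : ∀ j ∈ s, HasSum (fun x => ‖u j x‖ ^ 2) 1
  orth : ∀ j ∈ s, ∀ k ∈ s, j ≠ k → ∑' x, conj (u j x) * u k x = 0
  decay : ∀ j ∈ s, ∀ x, ‖u j x‖ ≤ A * Real.exp (-(‖x - c j‖ / ℓ))

section

variable {ι : Type} {s : Finset ι} {u : ι → Zd d → ℂ} {c : ι → Zd d} {A ℓ : ℝ}

/-- Bessel's inequality at a point -/
theorem ELoc.bessel (h : ELoc s u c A ℓ) (x : Zd d) : ∑ j ∈ s, ‖u j x‖ ^ 2 ≤ 1 := by
  classical
  obtain ⟨W, hW⟩ : ∃ W : ℝ, W = ∑ j ∈ s, ‖u j x‖ ^ 2 := ⟨_, rfl⟩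
  have hW0 : 0 ≤ W := by rw [hW]; positivity
  -- the vector `P = ∑ conj (u_j x) u_j`
  obtain ⟨P, hP⟩ : ∃ P : Zd d → ℂ, P = fun y => ∑ j ∈ s, conj (u j x) * u j y := ⟨_, rfl⟩
  have hsm : ∀ j ∈ s, ∀ k ∈ s, Summable fun y => conj (u j y) * u k y := fun j hj k hk =>
    Pool.Agent.W788.LD.Spec.summ_mul _ _ (h.norm j hj).summable (h.norm k hk).summable
  have hPP : ∀ y, ((‖P y‖ ^ 2 : ℝ) : ℂ) =
      ∑ j ∈ s, ∑ k ∈ s, (u j x * conj (u k x)) * (conj (u j y) * u k y) := by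
    intro y
    have h1 : ((‖P y‖ ^ 2 : ℝ) : ℂ) = conj (P y) * P y := by
      rw [mul_comm, Complex.mul_conj, Complex.normSq_eq_norm_sq]
    rw [h1, hP]
    simp only [map_sum, map_mul, Complex.conj_conj]
    rw [Finset.sum_mul_sum]
    refine Finset.sum_congr rfl fun j _ => Finset.sum_congr rfl fun k _ => ?_
    ring
  have hsum : HasSum (fun y => ((‖P y‖ ^ 2 : ℝ) : ℂ)) ((W : ℝ) : ℂ) := by
    simp only [hPP]
    have h1 : HasSum (fun y => ∑ j ∈ s, ∑ k ∈ s, (u j x * conj (u k x)) * (conj (u j y) * u k y))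
        (∑ j ∈ s, ∑ k ∈ s, (u j x * conj (u k x)) * (if j = k then 1 else 0)) := by
      refine hasSum_sum fun j hj => hasSum_sum fun k hk => HasSum.mul_left _ ?_
      by_cases hjk : j = k
      · subst hjk
        rw [if_pos rfl]
        have h2 : HasSum (fun y => ((‖u j y‖ ^ 2 : ℝ) : ℂ)) ((1 : ℝ) : ℂ) :=
          Complex.hasSum_ofReal.2 (h.norm j hj)
        rw [Complex.ofReal_one] at h2
        refine h2.congr_fun ?_
        intro y
        rw [mul_comm, Complex.mul_conj, Complex.normSq_eq_norm_sq]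
      · rw [if_neg hjk]
        have h2 := (hsm j hj k hk).hasSum
        rwa [h.orth j hj k hk hjk] at h2
    have h2 : ∑ j ∈ s, ∑ k ∈ s, (u j x * conj (u k x)) * (if j = k then (1 : ℂ) else 0) =
        ((W : ℝ) : ℂ) := by
      rw [hW]
      push_cast
      refine Finset.sum_congr rfl fun j hj => ?_
      rw [Finset.sum_eq_single j]
      · rw [if_pos rfl, mul_one, Complex.mul_conj, Complex.normSq_eq_norm_sq]
        push_cast
        rfl
      · intro k _ hk
        rw [if_neg (Ne.symm hk), mul_zero]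
      · intro hj'
        exact absurd hj hj'
    rwa [h2] at h1
  have hsumR : HasSum (fun y => ‖P y‖ ^ 2) W := Complex.hasSum_ofReal.1 hsum
  -- evaluate at `x`
  have h1 : ‖P x‖ ^ 2 ≤ W := by
    rw [← hsumR.tsum_eq]
    exact hsumR.summable.le_tsum x fun y _ => by positivity
  have h2 : P x = ((W : ℝ) : ℂ) := by
    rw [hP, hW]
    push_cast
    refine Finset.sum_congr rfl fun j _ => ?_
    rw [mul_comm, Complex.mul_conj, Complex.normSq_eq_norm_sq]
    push_cast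
    rfl
  rw [h2, Complex.norm_real, Real.norm_of_nonneg hW0] at h1
  rw [← hW]
  nlinarith

/-- the sum over the centres -/
theorem ELoc.centres (hd : 1 ≤ d) (h : ELoc s u c A ℓ) (hA : 1 ≤ A) (hℓ : 1 ≤ ℓ) (a : Zd d) :
    ∑ j ∈ s, Real.exp (-(‖a - c j‖ / (2 * ℓ))) ≤ 4 * A ^ 2 * (2 * (1 + 2 * d * ℓ)) ^ (2 * d) := by
  have hd1 : (1 : ℝ) ≤ d := by exact_mod_cast hd
  have hℓ0 : 0 < ℓ := by linarith
  obtain ⟨Z, hZ⟩ : ∃ Z : ℝ, Z = (2 * (1 + 2 * d * ℓ)) ^ d := ⟨_, rfl⟩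
  have hZ1 : 1 ≤ Z := by
    rw [hZ]
    refine one_le_pow₀ ?_
    have : 0 ≤ 2 * d * ℓ := by positivity
    linarith
  obtain ⟨ρ, hρ⟩ : ∃ ρ : ℝ, ρ = ℓ * Real.log (2 * A ^ 2 * Z) := ⟨_, rfl⟩
  have hAZ : 1 ≤ 2 * A ^ 2 * Z := by nlinarith [mul_self_nonneg (A - 1), sq_nonneg A]
  have hρ0 : 0 ≤ ρ := by
    rw [hρ]
    exact mul_nonneg hℓ0.le (Real.log_nonneg hAZ)
  have hρe : Real.exp (ρ / ℓ) = 2 * A ^ 2 * Z := by
    rw [hρ, mul_div_cancel_left₀ _ hℓ0.ne', Real.exp_log (by linarith)]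
  have hz1 := fun b : Zd d => expa hd (1 / ℓ) (by positivity) b
  have hz2 := expa hd (1 / (2 * ℓ)) (by positivity) a
  have e1 : (2 * (1 + d / (1 / (2 * ℓ)))) ^ d = Z := by
    rw [hZ]
    congr 2
    field_simp
  have e2 : (2 * (1 + d / (1 / ℓ))) ^ d ≤ Z := by
    rw [hZ]
    refine pow_le_pow_left₀ (by positivity) ?_ d
    rw [div_div_eq_mul_div, div_one]
    have : 0 ≤ d * ℓ := by positivity
    nlinarith
  -- half of the mass is near the centre
  have hhalf : ∀ j ∈ s, 1 / 2 ≤ ∑' x, (if ‖x - c j‖ ≤ ρ then ‖u j x‖ ^ 2 else 0) := by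
    intro j hj
    have hs := (h.norm j hj).summable
    have s1 : Summable fun x => (if ‖x - c j‖ ≤ ρ then ‖u j x‖ ^ 2 else 0) := by
      refine Summable.of_nonneg_of_le (fun x => by split_ifs <;> positivity) (fun x => ?_) hs
      split_ifs
      · exact le_rfl
      · positivity
    have s2 : Summable fun x => (if ‖x - c j‖ ≤ ρ then 0 else ‖u j x‖ ^ 2) := by
      refine Summable.of_nonneg_of_le (fun x => by split_ifs <;> positivity) (fun x => ?_) hs
      split_ifs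
      · positivity
      · exact le_rfl
    have h1 : ∑' x, (if ‖x - c j‖ ≤ ρ then ‖u j x‖ ^ 2 else 0) +
        ∑' x, (if ‖x - c j‖ ≤ ρ then 0 else ‖u j x‖ ^ 2) = 1 := by
      rw [← s1.tsum_add s2, ← (h.norm j hj).tsum_eq]
      refine tsum_congr fun x => ?_
      split_ifs <;> ring
    have h2 : ∀ x, (if ‖x - c j‖ ≤ ρ then 0 else ‖u j x‖ ^ 2) ≤
        A ^ 2 * Real.exp (-(ρ / ℓ)) * Real.exp (-(1 / ℓ * ‖x - c j‖)) := by
      intro x
      split_ifs with hx
      · positivity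
      · have h3 := pow_le_pow_left₀ (norm_nonneg _) (h.decay j hj x) 2
        refine h3.trans ?_
        rw [mul_pow, mul_assoc, ← Real.exp_nat_mul, ← Real.exp_add]
        refine mul_le_mul_of_nonneg_left (Real.exp_le_exp.2 ?_) (by positivity)
        have h4 : ρ / ℓ ≤ ‖x - c j‖ / ℓ := by
          have := (not_le.1 hx).le
          gcongr
        have h5 : 1 / ℓ * ‖x - c j‖ = ‖x - c j‖ / ℓ := by ring
        rw [h5]
        push_cast
        linarith
    have h3 := s2.tsum_le_tsum h2 ((hz1 (c j)).1.mul_left _)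
    rw [tsum_mul_left] at h3
    have h4 : A ^ 2 * Real.exp (-(ρ / ℓ)) * ∑' x, Real.exp (-(1 / ℓ * ‖x - c j‖)) ≤ 1 / 2 := by
      have h5 : A ^ 2 * Real.exp (-(ρ / ℓ)) = 1 / (2 * Z) := by
        rw [Real.exp_neg, hρe]
        field_simp
      rw [h5]
      have h6 := (hz1 (c j)).2.trans e2
      rw [one_div_mul_eq_div, div_le_div_iff₀ (by positivity) (by norm_num)]
      linarith
    linarith
  have hexp0 : ∀ t : ℝ, 0 ≤ Real.exp t := fun t => (Real.exp_pos t).le
  -- transfer the weight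
  have hw : ∀ j ∈ s, Real.exp (-(‖a - c j‖ / (2 * ℓ))) ≤
      2 * Real.exp (ρ / (2 * ℓ)) * ∑' x, ‖u j x‖ ^ 2 * Real.exp (-(1 / (2 * ℓ) * ‖x - a‖)) := by
    intro j hj
    have hs := (h.norm j hj).summable
    have s1 : Summable fun x => (if ‖x - c j‖ ≤ ρ then ‖u j x‖ ^ 2 else 0) := by
      refine Summable.of_nonneg_of_le (fun x => by split_ifs <;> positivity) (fun x => ?_) hs
      split_ifs
      · exact le_rfl
      · positivity
    have s3 : Summable fun x => ‖u j x‖ ^ 2 * Real.exp (-(1 / (2 * ℓ) * ‖x - a‖)) := by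
      refine Summable.of_nonneg_of_le (fun x => by positivity) (fun x => ?_) hs
      refine mul_le_of_le_one_right (by positivity) ?_
      rw [Real.exp_le_one_iff]
      have : 0 ≤ 1 / (2 * ℓ) * ‖x - a‖ := by positivity
      linarith
    have h1 : ∀ x, Real.exp (-(‖a - c j‖ / (2 * ℓ))) * (if ‖x - c j‖ ≤ ρ then ‖u j x‖ ^ 2 else 0) ≤
        Real.exp (ρ / (2 * ℓ)) * (‖u j x‖ ^ 2 * Real.exp (-(1 / (2 * ℓ) * ‖x - a‖))) := by
      intro x
      split_ifs with hx
      · have h2 : Real.exp (-(‖a - c j‖ / (2 * ℓ))) ≤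
            Real.exp (ρ / (2 * ℓ)) * Real.exp (-(1 / (2 * ℓ) * ‖x - a‖)) := by
          rw [← Real.exp_add]
          refine Real.exp_le_exp.2 ?_
          have h3 : ‖x - a‖ ≤ ‖x - c j‖ + ‖a - c j‖ := by
            have := norm_sub_le (x - c j) (a - c j)
            rwa [sub_sub_sub_cancel_right] at this
          have h4 : ‖x - a‖ / (2 * ℓ) ≤ ρ / (2 * ℓ) + ‖a - c j‖ / (2 * ℓ) := by
            rw [← add_div]
            gcongr
            linarith
          have h5 : 1 / (2 * ℓ) * ‖x - a‖ = ‖x - a‖ / (2 * ℓ) := by ring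
          rw [h5]
          linarith
        calc Real.exp (-(‖a - c j‖ / (2 * ℓ))) * ‖u j x‖ ^ 2 ≤
            (Real.exp (ρ / (2 * ℓ)) * Real.exp (-(1 / (2 * ℓ) * ‖x - a‖))) * ‖u j x‖ ^ 2 := by
              gcongr
          _ = _ := by ring
      · rw [mul_zero]
        positivity
    have h2 := (s1.mul_left (Real.exp (-(‖a - c j‖ / (2 * ℓ))))).tsum_le_tsum h1 (s3.mul_left _)
    rw [tsum_mul_left, tsum_mul_left] at h2
    have h3 := mul_le_mul_of_nonneg_left (hhalf j hj) (hexp0 (-(‖a - c j‖ / (2 * ℓ))))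
    linarith
  have s3 : ∀ j ∈ s, Summable fun x => ‖u j x‖ ^ 2 * Real.exp (-(1 / (2 * ℓ) * ‖x - a‖)) := by
    intro j hj
    refine Summable.of_nonneg_of_le (fun x => by positivity) (fun x => ?_) (h.norm j hj).summable
    refine mul_le_of_le_one_right (by positivity) ?_
    rw [Real.exp_le_one_iff]
    have : 0 ≤ 1 / (2 * ℓ) * ‖x - a‖ := by positivity
    linarith
  have hsw : ∑ j ∈ s, ∑' x, ‖u j x‖ ^ 2 * Real.exp (-(1 / (2 * ℓ) * ‖x - a‖)) ≤ Z := by
    rw [← Summable.tsum_finsetSum s3]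
    have h1 : ∀ x, ∑ j ∈ s, ‖u j x‖ ^ 2 * Real.exp (-(1 / (2 * ℓ) * ‖x - a‖)) ≤
        Real.exp (-(1 / (2 * ℓ) * ‖x - a‖)) := by
      intro x
      rw [← Finset.sum_mul]
      exact mul_le_of_le_one_left (hexp0 _) (h.bessel x)
    have h2 := (summable_sum s3).tsum_le_tsum h1 hz2.1
    exact h2.trans (hz2.2.trans e1.le)
  have hρ2 : Real.exp (ρ / (2 * ℓ)) ≤ 2 * A ^ 2 * Z := by
    rw [← hρe]
    refine Real.exp_le_exp.2 ?_
    exact div_le_div_of_nonneg_left hρ0 hℓ0 (by linarith)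
  calc ∑ j ∈ s, Real.exp (-(‖a - c j‖ / (2 * ℓ))) ≤
      ∑ j ∈ s, 2 * Real.exp (ρ / (2 * ℓ)) *
        ∑' x, ‖u j x‖ ^ 2 * Real.exp (-(1 / (2 * ℓ) * ‖x - a‖)) := Finset.sum_le_sum hw
    _ = 2 * Real.exp (ρ / (2 * ℓ)) *
        ∑ j ∈ s, ∑' x, ‖u j x‖ ^ 2 * Real.exp (-(1 / (2 * ℓ) * ‖x - a‖)) := by
        rw [Finset.mul_sum]
    _ ≤ 2 * (2 * A ^ 2 * Z) * Z := by gcongr
    _ = 4 * A ^ 2 * (2 * (1 + 2 * d * ℓ)) ^ (2 * d) := by
        rw [hZ, mul_comm 2 d, pow_mul]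
        ring

end

end Pool.Agent.H189.W
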