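import Pool.Agent.H189.W.Loc2

/-! The weight of the exponentially localised eigenfunctions, from the law of the resolvent. -/

set_option autoImplicit false
set_option linter.unusedVariables false
set_option linter.unusedSectionVars false

open scoped BigOperators Topology ENNReal ComplexConjugate
open MeasureTheory Filter Set

namespace Pool.Agent.H189.W

open Pool.Agent.H4R2.LO (Zd)
open Pool.Agent.TH794.QD
open Pool.Agent.TH794.QE
open Pool.Agent.R988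
open Pool.Agent.W788.LD.Spec (S symm summ_mul)

variable {d : ℕ} {ι : Type}

/-- the mass of the resolvent outside of the bulk -/
theorem out_mass (hd : 3 ≤ d) {V : Zd d → ℝ} {a : Zd d} {ψ : ℝ → Zd d → ℂ} (h : Sol d V a ψ)
    (η : ℝ) (hη : 0 < η) (c κ θ C0 : ℝ) (hκ : 0 < κ)
    (hκ1 : κ ≤ 1) (hθ : 0 ≤ θ) (hC0 : ∀ E, gI d E ≤ C0)
    (h2 : ∀ e, |c - e| ≤ 2 * d - κ → |η * ∑' x, ‖La ψ e η x‖ ^ 2 - gI d (c - e)| ≤ θ) :
    ∫ e in (Icc (c - (2 * d - κ)) (c + (2 * d - κ)))ᶜ, η * ∑' x, ‖La ψ e η x‖ ^ 2 ≤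
      2 * κ * C0 + 4 * d * θ := by
  have hd3 : (3 : ℝ) ≤ d := by exact_mod_cast hd
  have hgc : Continuous (gI d) := g0_cont d hd
  have hg0 : ∀ E, 0 ≤ gI d E := g0_nonneg d hd
  obtain ⟨hM1, hM2⟩ := La_mass h η hη
  obtain ⟨m, hm⟩ : ∃ m : ℝ → ℝ, m = fun e => ∑' x, ‖La ψ e η x‖ ^ 2 := ⟨_, rfl⟩
  have hmi : Integrable m := by rw [hm]; exact hM1
  have hmv : ∫ e, m e = Real.pi / η := by rw [hm]; exact hM2
  obtain ⟨B, hB⟩ : ∃ B : Set ℝ, B = Icc (c - (2 * d - κ)) (c + (2 * d - κ)) := ⟨_, rfl⟩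
  rw [← hB]
  have hBm : MeasurableSet B := by rw [hB]; exact measurableSet_Icc
  have hBe : ∀ e, e ∈ B ↔ |c - e| ≤ 2 * d - κ := by
    intro e
    rw [hB, mem_Icc, abs_le]
    constructor <;> intro h <;> constructor <;> linarith [h.1, h.2]
  have hBvol : volume.real B = 2 * (2 * d - κ) := by
    rw [hB, Real.volume_real_Icc_of_le (by linarith)]
    ring
  have hBv4 : volume.real B ≤ 4 * d := by rw [hBvol]; linarith
  have hBfin : volume B ≠ ⊤ := by
    rw [hB]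
    exact measure_Icc_lt_top.ne
  have hgi : ∀ x y, IntervalIntegrable (gI d) volume x y := fun x y => hgc.intervalIntegrable x y
  have hsub : ∫ e in B, gI d (c - e) = ∫ E in (-(2 * (d : ℝ) - κ))..(2 * d - κ), gI d E := by
    rw [hB, integral_Icc_eq_integral_Ioc, ← intervalIntegral.integral_of_le (by linarith),
      intervalIntegral.integral_comp_sub_left (gI d) c]
    congr 1 <;> ring
  have g1 : ∫ E in (-(2 * (d : ℝ)))..(2 * d), gI d E =
      (∫ E in (-(2 * (d : ℝ)))..(-(2 * d - κ)), gI d E) +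
        (∫ E in (-(2 * (d : ℝ) - κ))..(2 * d - κ), gI d E) +
        ∫ E in (2 * (d : ℝ) - κ)..(2 * d), gI d E := by
    rw [intervalIntegral.integral_add_adjacent_intervals (hgi _ _) (hgi _ _),
      intervalIntegral.integral_add_adjacent_intervals (hgi _ _) (hgi _ _)]
  have e3 := intervalIntegral.integral_mono_on (μ := volume) (g := fun _ => C0)
    (show -(2 * (d : ℝ)) ≤ -(2 * d - κ) by linarith) (hgi _ _)
    (continuous_const.intervalIntegrable _ _) fun E _ => hC0 E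
  have e4 := intervalIntegral.integral_mono_on (μ := volume) (g := fun _ => C0)
    (show 2 * (d : ℝ) - κ ≤ 2 * d by linarith) (hgi _ _)
    (continuous_const.intervalIntegrable _ _) fun E _ => hC0 E
  rw [intervalIntegral.integral_const, smul_eq_mul] at e3 e4
  have hdos : Real.pi ≤ ∫ E in (-(2 * (d : ℝ)))..(2 * d), gI d E := dos_ge d hd
  have hgB : IntegrableOn (fun e => gI d (c - e)) B := by
    rw [hB]
    exact (hgc.comp (continuous_const.sub continuous_id)).continuousOn.integrableOn_Icc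
  have hmB : (∫ e in B, gI d (c - e)) - 4 * d * θ ≤ ∫ e in B, η * m e := by
    have e1 : ∫ e in B, (gI d (c - e) - θ) ≤ ∫ e in B, η * m e := by
      refine setIntegral_mono_on (hgB.sub (integrableOn_const hBfin))
        (hmi.integrableOn.const_mul _) hBm fun e he => ?_
      have := (abs_le.1 (h2 e ((hBe e).1 he))).1
      rw [hm]
      linarith
    rw [integral_sub hgB (integrableOn_const hBfin), setIntegral_const, smul_eq_mul] at e1
    have e2 := mul_le_mul_of_nonneg_right hBv4 hθ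
    linarith
  have e1 := integral_add_compl hBm (hmi.const_mul η)
  have e2 : ∫ e, η * m e = Real.pi := by
    rw [integral_const_mul, hmv]
    field_simp
  rw [e2] at e1
  rw [hsub] at hmB
  have e5 : ∫ e in Bᶜ, η * ∑' x, ‖La ψ e η x‖ ^ 2 = ∫ e in Bᶜ, η * m e := by rw [hm]
  rw [e5]
  linarith

/-- the Lorentzian has mass `π` -/
theorem lor_int (Ej η : ℝ) (hη : 0 < η) : Integrable (fun e : ℝ => η / ((Ej - e) ^ 2 + η ^ 2)) ∧
    ∫ e : ℝ, η / ((Ej - e) ^ 2 + η ^ 2) = Real.pi := by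
  have h0 : Integrable (fun x : ℝ => η / (x ^ 2 + η ^ 2)) ∧
      ∫ x : ℝ, η / (x ^ 2 + η ^ 2) = Real.pi := by
    have e1 : ∀ x : ℝ, η / (x ^ 2 + η ^ 2) = η⁻¹ * (1 + (x / η) ^ 2)⁻¹ := by
      intro x
      have h1 : (1 : ℝ) + (x / η) ^ 2 ≠ 0 := by positivity
      have h2 : x ^ 2 + η ^ 2 ≠ 0 := by positivity
      field_simp
      ring
    simp only [e1]
    have h2 : Integrable fun x : ℝ => (1 + (x / η) ^ 2)⁻¹ :=
      integrable_inv_one_add_sq.comp_div hη.ne'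
    refine ⟨h2.const_mul _, ?_⟩
    rw [integral_const_mul, Measure.integral_comp_div (fun x : ℝ => (1 + x ^ 2)⁻¹) η,
      integral_univ_inv_one_add_sq, abs_of_pos hη, smul_eq_mul]
    field_simp
  refine ⟨h0.1.comp_sub_left Ej, ?_⟩
  rw [integral_sub_left_eq_self (fun x : ℝ => η / (x ^ 2 + η ^ 2)) volume Ej]
  exact h0.2

/-- **the weight of the localised eigenfunctions** -/
theorem lw_det (hd : 3 ≤ d) {V : Zd d → ℝ} {a : Zd d} {ψ : ℝ → Zd d → ℂ} (h : Sol d V a ψ)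
    {s : Finset ι} {u : ι → Zd d → ℂ} {cc : ι → Zd d} {A ℓ : ℝ} (hu : ELoc s u cc A ℓ)
    (hA : 1 ≤ A) (hℓ : 1 ≤ ℓ) (E : ι → ℝ)
    (heig : ∀ j ∈ s, ∀ x, -S (u j) x + (V x : ℂ) * u j x = (E j : ℂ) * u j x)
    (η : ℝ) (hη : 0 < η) (c κ θ θ' C0 R : ℝ) (hκ : 0 < κ)
    (hκ1 : κ ≤ 1) (hθ : 0 ≤ θ) (hθ' : 0 ≤ θ') (hC0 : ∀ E, gI d E ≤ C0)
    (h2 : ∀ e, |c - e| ≤ 2 * d - κ → |η * ∑' x, ‖La ψ e η x‖ ^ 2 - gI d (c - e)| ≤ θ)
    (h3 : ∀ e, |c - e| ≤ 2 * d - κ →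
      η * ∑' x, (if ‖x - a‖ ≤ R then ‖La ψ e η x‖ ^ 2 else 0) ≤ θ')
    (htail : 8 * A ^ 4 * (2 * (1 + 4 * d * ℓ)) ^ (3 * d) * Real.exp (-(R / (4 * ℓ))) * η⁻¹ ≤ θ') :
    Real.pi * ∑ j ∈ s, ‖u j a‖ ^ 2 ≤ 8 * d * θ' + (2 * κ * C0 + 4 * d * θ) := by
  have hd3 : (3 : ℝ) ≤ d := by exact_mod_cast hd
  obtain ⟨B, hB⟩ : ∃ B : Set ℝ, B = Icc (c - (2 * d - κ)) (c + (2 * d - κ)) := ⟨_, rfl⟩
  have hBm : MeasurableSet B := by rw [hB]; exact measurableSet_Icc
  have hBe : ∀ e, e ∈ B ↔ |c - e| ≤ 2 * d - κ := by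
    intro e
    rw [hB, mem_Icc, abs_le]
    constructor <;> intro h <;> constructor <;> linarith [h.1, h.2]
  have hBvol : volume.real B = 2 * (2 * d - κ) := by
    rw [hB, Real.volume_real_Icc_of_le (by linarith)]
    ring
  have hBv4 : volume.real B ≤ 4 * d := by rw [hBvol]; linarith
  have hBfin : volume B ≠ ⊤ := by
    rw [hB]
    exact measure_Icc_lt_top.ne
  have hR : ∀ e, Rs d V a e η (fun x => Complex.I * La ψ e η x) :=
    fun e => ⟨La_sum h e η hη, La_eq h e η hη⟩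
  have hn : ∀ e x, ‖Complex.I * La ψ e η x‖ = ‖La ψ e η x‖ := fun e x => by
    rw [norm_mul, Complex.norm_I, one_mul]
  obtain ⟨w, hw⟩ : ∃ w : ℝ → ℝ, w = fun e => η * wgt s u E a e η := ⟨_, rfl⟩
  have hw' : ∀ e, w e = ∑ j ∈ s, ‖u j a‖ ^ 2 * (η / ((E j - e) ^ 2 + η ^ 2)) := fun e => by
    rw [hw]
    unfold wgt
    simp only
    rw [Finset.mul_sum]
    exact Finset.sum_congr rfl fun j _ => by ring
  have hwi : Integrable w := by
    have : w = fun e => ∑ j ∈ s, ‖u j a‖ ^ 2 * (η / ((E j - e) ^ 2 + η ^ 2)) := funext hw'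
    rw [this]
    exact integrable_finsetSum _ fun j _ => ((lor_int (E j) η hη).1.const_mul _)
  have hwv : ∫ e, w e = Real.pi * ∑ j ∈ s, ‖u j a‖ ^ 2 := by
    simp only [hw']
    rw [integral_finsetSum _ fun j _ => ((lor_int (E j) η hη).1.const_mul _), Finset.mul_sum]
    refine Finset.sum_congr rfl fun j _ => ?_
    rw [integral_const_mul, (lor_int (E j) η hη).2, mul_comm]
  have e1 := integral_add_compl hBm hwi
  rw [hwv] at e1
  -- inside
  have hin : ∫ e in B, w e ≤ 4 * d * (2 * θ') := by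
    have h4 : ∀ e ∈ B, w e ≤ 2 * θ' := by
      intro e he
      have h5 := hu.low_ball (by omega) hA hℓ (hR e) hη E heig R
      have h6 := mul_le_mul_of_nonneg_left h5 hη.le
      have h7 := h3 e ((hBe e).1 he)
      simp only [hn] at h6
      rw [hw]
      simp only
      refine h6.trans ?_
      have h8 : η * (8 * A ^ 4 * (2 * (1 + 4 * d * ℓ)) ^ (3 * d) * Real.exp (-(R / (4 * ℓ))) *
          (η⁻¹) ^ 2) = 8 * A ^ 4 * (2 * (1 + 4 * d * ℓ)) ^ (3 * d) *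
            Real.exp (-(R / (4 * ℓ))) * η⁻¹ := by
        field_simp
      rw [mul_add, h8]
      linarith
    have h5 : ∫ e in B, w e ≤ ∫ e in B, 2 * θ' :=
      setIntegral_mono_on hwi.integrableOn (integrableOn_const hBfin) hBm h4
    rw [setIntegral_const, smul_eq_mul] at h5
    refine h5.trans ?_
    exact mul_le_mul_of_nonneg_right hBv4 (by positivity)
  -- outside
  have hout : ∫ e in Bᶜ, w e ≤ 2 * κ * C0 + 4 * d * θ := by
    refine le_trans ?_ (out_mass hd h η hη c κ θ C0 hκ hκ1 hθ hC0 h2)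
    rw [← hB]
    refine setIntegral_mono hwi.integrableOn ((La_mass h η hη).1.const_mul η).integrableOn
      fun e => ?_
    have h5 := hu.low_all (hR e) hη E heig
    simp only [hn] at h5
    rw [hw]
    exact mul_le_mul_of_nonneg_left h5 hη.le
  linarith

/-- **the Fejer kernel on the lattice** -/
theorem fej (i : Fin d) (a : Zd d) (m : ℕ) (r R : ℝ) (hr : 0 ≤ r) (hR : 0 ≤ R)
    (hm : r * m * R ≤ Real.pi / 3) (g : Zd d → ℂ) (hg : Summable fun x => ‖g x‖ ^ 2) (η : ℝ)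
    (hη : 0 ≤ η) (Tn : ℤ → ℝ)
    (hT : ∀ n : ℤ, |n| ≤ m → ‖(η : ℂ) * ∑' x : Zd d, Complex.exp (Complex.I *
      ((r * n * ((x i : ℝ) - a i) : ℝ) : ℂ)) * ((‖g x‖ ^ 2 : ℝ) : ℂ)‖ ≤ Tn n) :
    η * ∑' x, (if ‖x - a‖ ≤ R then ‖g x‖ ^ 2 else 0) ≤
      4 * ((1 / ((m : ℝ) + 1)) ^ 2 * ∑ t : Fin (m + 1), ∑ s : Fin (m + 1),
        Tn ((t : ℤ) - (s : ℤ))) := by
  have hm1 : (0 : ℝ) < (m : ℝ) + 1 := by positivity
  obtain ⟨χ, hχ⟩ : ∃ χ : Fin (m + 1) → Zd d → ℂ, χ = fun (t : Fin (m + 1)) (x : Zd d) =>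
    Complex.exp (Complex.I * ((r * (t : ℕ) * ((x i : ℝ) - a i) : ℝ) : ℂ)) := ⟨_, rfl⟩
  obtain ⟨Fj, hFj⟩ : ∃ Fj : Zd d → ℝ, Fj = fun x =>
    ‖((1 / ((m : ℝ) + 1) : ℝ) : ℂ) * ∑ t, χ t x‖ ^ 2 := ⟨_, rfl⟩
  have hχ1 : ∀ t x, ‖χ t x‖ = 1 := fun t x => by
    rw [hχ]
    simp only
    rw [mul_comm, Complex.norm_exp_ofReal_mul_I]
  have hF0 : ∀ x, 0 ≤ Fj x := fun x => by rw [hFj]; positivity
  have hF1 : ∀ x, Fj x ≤ 1 := fun x => by
    rw [hFj]
    refine pow_le_one₀ (norm_nonneg _) ?_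
    rw [norm_mul, Complex.norm_real, Real.norm_of_nonneg (by positivity), one_div_mul_eq_div,
      div_le_one hm1]
    refine (norm_sum_le _ _).trans ?_
    simp only [hχ1]
    rw [Finset.sum_const, Finset.card_univ, Fintype.card_fin, nsmul_eq_mul, mul_one]
    push_cast
    exact le_rfl
  -- the kernel is large near `a`
  have hlow : ∀ x, ‖x - a‖ ≤ R → 1 / 4 ≤ Fj x := by
    intro x hx
    have hxi : |(x i : ℝ) - a i| ≤ R := by
      have h1 := (norm_le_pi_norm (x - a) i).trans hx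
      rw [Pi.sub_apply, Int.norm_eq_abs] at h1
      push_cast at h1
      exact h1
    have h1 : ∀ t : Fin (m + 1), 1 / 2 ≤ (χ t x).re := by
      intro t
      rw [hχ]
      simp only
      rw [mul_comm, Complex.exp_ofReal_mul_I_re, ← Real.cos_abs, ← Real.cos_pi_div_three]
      have ht : ((t : ℕ) : ℝ) ≤ m := by
        have := t.2
        exact_mod_cast Nat.lt_succ_iff.1 this
      have h2 : |r * (t : ℕ) * ((x i : ℝ) - a i)| ≤ Real.pi / 3 := by
        refine le_trans ?_ hm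
        rw [abs_mul, abs_of_nonneg (by positivity : (0 : ℝ) ≤ r * (t : ℕ))]
        gcongr
      exact Real.cos_le_cos_of_nonneg_of_le_pi (abs_nonneg _) (by
        have := Real.pi_pos
        linarith) h2
    have h3 : (1 : ℝ) / 2 ≤ ‖((1 / ((m : ℝ) + 1) : ℝ) : ℂ) * ∑ t, χ t x‖ := by
      refine le_trans ?_ (Complex.re_le_norm _)
      rw [Complex.re_ofReal_mul, Complex.re_sum]
      have h4 : ∑ t : Fin (m + 1), (1 / 2 : ℝ) ≤ ∑ t, (χ t x).re :=
        Finset.sum_le_sum fun t _ => h1 t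
      rw [Finset.sum_const, Finset.card_univ, Fintype.card_fin, nsmul_eq_mul] at h4
      push_cast at h4
      rw [one_div_mul_eq_div, le_div_iff₀ (by positivity)]
      linarith
    rw [hFj]
    simp only
    nlinarith [norm_nonneg (((1 / ((m : ℝ) + 1) : ℝ) : ℂ) * ∑ t, χ t x)]
  -- the expansion
  have hFe : ∀ x, ((Fj x : ℝ) : ℂ) = ((1 / ((m : ℝ) + 1) : ℝ) : ℂ) ^ 2 *
      ∑ t, ∑ s, χ t x * conj (χ s x) := by
    intro x
    have h1 : ∀ z : ℂ, ((‖z‖ ^ 2 : ℝ) : ℂ) = z * conj z := by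
      intro z
      rw [Complex.mul_conj, Complex.normSq_eq_norm_sq]
    rw [hFj]
    simp only
    rw [h1, map_mul, Complex.conj_ofReal, map_sum]
    have e1 : (((1 / ((m : ℝ) + 1) : ℝ) : ℂ) * ∑ t, χ t x) *
        (((1 / ((m : ℝ) + 1) : ℝ) : ℂ) * ∑ s, conj (χ s x)) =
        ((1 / ((m : ℝ) + 1) : ℝ) : ℂ) ^ 2 * ((∑ t, χ t x) * ∑ s, conj (χ s x)) := by ring
    rw [e1, Finset.sum_mul_sum]
  have hpair : ∀ (t s : Fin (m + 1)) x, χ t x * conj (χ s x) = Complex.exp (Complex.I *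
      ((r * (((t : ℤ) - (s : ℤ) : ℤ) : ℝ) * ((x i : ℝ) - a i) : ℝ) : ℂ)) := by
    intro t s x
    rw [hχ]
    simp only
    rw [← Complex.exp_conj, ← Complex.exp_add]
    congr 1
    simp only [map_mul, Complex.conj_I, Complex.conj_ofReal]
    push_cast
    ring
  have hFg : Summable fun x => Fj x * ‖g x‖ ^ 2 :=
    Summable.of_nonneg_of_le (fun x => mul_nonneg (hF0 x) (by positivity))
      (fun x => mul_le_of_le_one_left (by positivity) (hF1 x)) hg
  have hcs : ∀ t s : Fin (m + 1), Summable fun x => (χ t x * conj (χ s x)) *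
      ((‖g x‖ ^ 2 : ℝ) : ℂ) := by
    intro t s
    refine Summable.of_norm_bounded hg fun x => ?_
    rw [norm_mul, norm_mul, RCLike.norm_conj, hχ1, hχ1, one_mul, one_mul, Complex.norm_real,
      Real.norm_of_nonneg (sq_nonneg _)]
  have hexp : ((η * ∑' x, Fj x * ‖g x‖ ^ 2 : ℝ) : ℂ) = ((1 / ((m : ℝ) + 1) : ℝ) : ℂ) ^ 2 *
      ∑ t, ∑ s, ((η : ℂ) * ∑' x, (χ t x * conj (χ s x)) * ((‖g x‖ ^ 2 : ℝ) : ℂ)) := by
    rw [Complex.ofReal_mul, Complex.ofReal_tsum]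
    have e1 : ∀ x, ((Fj x * ‖g x‖ ^ 2 : ℝ) : ℂ) = ((1 / ((m : ℝ) + 1) : ℝ) : ℂ) ^ 2 *
        ∑ t, ∑ s, (χ t x * conj (χ s x)) * ((‖g x‖ ^ 2 : ℝ) : ℂ) := by
      intro x
      rw [Complex.ofReal_mul, hFe, mul_assoc, Finset.sum_mul]
      congr 1
      refine Finset.sum_congr rfl fun t _ => ?_
      rw [Finset.sum_mul]
    simp only [e1]
    rw [tsum_mul_left, Summable.tsum_finsetSum fun t _ => summable_sum fun s _ => hcs t s]
    have e2 : ∀ t : Fin (m + 1), ∑' x, ∑ s, (χ t x * conj (χ s x)) * ((‖g x‖ ^ 2 : ℝ) : ℂ) =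
        ∑ s, ∑' x, (χ t x * conj (χ s x)) * ((‖g x‖ ^ 2 : ℝ) : ℂ) := fun t =>
      Summable.tsum_finsetSum fun s _ => hcs t s
    simp only [e2]
    simp only [← Finset.mul_sum]
    ring
  have hub : η * ∑' x, Fj x * ‖g x‖ ^ 2 ≤ (1 / ((m : ℝ) + 1)) ^ 2 *
      ∑ t : Fin (m + 1), ∑ s : Fin (m + 1), Tn ((t : ℤ) - (s : ℤ)) := by
    have h1 : η * ∑' x, Fj x * ‖g x‖ ^ 2 = ‖((η * ∑' x, Fj x * ‖g x‖ ^ 2 : ℝ) : ℂ)‖ := by
      rw [Complex.norm_real, Real.norm_of_nonneg]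
      exact mul_nonneg hη (tsum_nonneg fun x => mul_nonneg (hF0 x) (by positivity))
    rw [h1, hexp, norm_mul, norm_pow, Complex.norm_real, Real.norm_of_nonneg (by positivity)]
    refine mul_le_mul_of_nonneg_left ?_ (by positivity)
    refine (norm_sum_le _ _).trans (Finset.sum_le_sum fun t _ => ?_)
    refine (norm_sum_le _ _).trans (Finset.sum_le_sum fun s _ => ?_)
    simp only [hpair]
    exact hT _ (by
      have h1 := t.2
      have h2 := s.2
      rw [abs_le]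
      constructor <;> omega)
  have hball : ∑' x, (if ‖x - a‖ ≤ R then ‖g x‖ ^ 2 else 0) ≤ 4 * ∑' x, Fj x * ‖g x‖ ^ 2 := by
    rw [← tsum_mul_left]
    have s1 : Summable fun x => (if ‖x - a‖ ≤ R then ‖g x‖ ^ 2 else 0) := by
      refine Summable.of_nonneg_of_le (fun x => by split_ifs <;> positivity) (fun x => ?_) hg
      split_ifs
      · exact le_rfl
      · positivity
    refine s1.tsum_le_tsum (fun x => ?_) (hFg.mul_left 4)
    split_ifs with hx
    · have h1 := hlow x hx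
      have h2 : 0 ≤ ‖g x‖ ^ 2 := by positivity
      nlinarith
    · exact mul_nonneg (by norm_num) (mul_nonneg (hF0 x) (by positivity))
  calc η * ∑' x, (if ‖x - a‖ ≤ R then ‖g x‖ ^ 2 else 0) ≤
      η * (4 * ∑' x, Fj x * ‖g x‖ ^ 2) := by gcongr
    _ = 4 * (η * ∑' x, Fj x * ‖g x‖ ^ 2) := by ring
    _ ≤ _ := by gcongr

end Pool.Agent.H189.W
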